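import Pool.Agent.Helper70.SK.Stmts
import Pool.Agent.Helper70.SK.Lib

set_option autoImplicit false

/-! Module COV. -/

namespace Pool.Agent.Helper70.SK

open Finset Pool.Agent.Helper70.DK MeasureTheory

/-- the matrix of a tuple -/
def covM {Ω : Type} {m : ℕ} (ξ : Ω → Fin m → ℤ) {j : ℕ} (z : Fin j → Ω) (I : Fin j → Fin m) :
    Matrix (Fin j) (Fin j) ℤ := Matrix.of fun a b => ξ (z a) (I b)

/-- the maximal minor -/
def covX {Ω : Type} {m : ℕ} (ξ : Ω → Fin m → ℤ) {j : ℕ} (z : Fin j → Ω) : ℕ :=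
  Finset.univ.sup fun I : Fin j → Fin m => (covM ξ z I).det.natAbs

theorem covX_le {Ω : Type} {m : ℕ} (ξ : Ω → Fin m → ℤ) {j : ℕ} (z : Fin j → Ω)
    (I : Fin j → Fin m) : (covM ξ z I).det.natAbs ≤ covX ξ z :=
  Finset.le_sup (f := fun I : Fin j → Fin m => (covM ξ z I).det.natAbs) (Finset.mem_univ I)

theorem covX_exists {Ω : Type} {m : ℕ} (ξ : Ω → Fin m → ℤ) {j : ℕ} (z : Fin j → Ω)
    (h : 0 < covX ξ z) : ∃ I : Fin j → Fin m, (covM ξ z I).det.natAbs = covX ξ z := by
  have hne : (Finset.univ : Finset (Fin j → Fin m)).Nonempty := by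
    by_contra hn
    rw [Finset.not_nonempty_iff_eq_empty] at hn
    unfold covX at h
    rw [hn, Finset.sup_empty] at h
    exact absurd h (by simp)
  obtain ⟨I, _, hI⟩ := Finset.exists_mem_eq_sup Finset.univ hne
    (fun I : Fin j → Fin m => (covM ξ z I).det.natAbs)
  exact ⟨I, hI.symm⟩

/-- expansion of the larger minor along the last row -/
theorem cov_expand {Ω : Type} {m : ℕ} (ξ : Ω → Fin m → ℤ) {j : ℕ} (z : Fin j → Ω)
    (I : Fin j → Fin m) (i : Fin m) : ∃ e : Fin j → ℤ, (∀ b, (e b).natAbs ≤ covX ξ z) ∧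
      ∀ w : Ω, |(covM ξ z I).det * ξ w i - ∑ b, e b * ξ w (I b)| ≤
        (covX ξ (Fin.snoc (α := fun _ => Ω) z w) : ℤ) := by
  refine ⟨fun b => -((-1) ^ (((Fin.last j : Fin (j + 1)) : ℕ) + ((b.castSucc : Fin (j + 1)) : ℕ)) *
    (covM ξ z (fun b' => (Fin.snoc (α := fun _ => Fin m) I i : Fin (j + 1) → Fin m)
      ((b.castSucc : Fin (j + 1)).succAbove b'))).det), ?_, ?_⟩
  · intro b
    rw [Int.natAbs_neg, Int.natAbs_mul, Int.natAbs_pow]
    simp only [Int.reduceNeg, Int.natAbs_neg, Int.natAbs_one, one_pow, one_mul]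
    exact covX_le ξ z _
  · intro w
    have h1 := covX_le ξ (Fin.snoc (α := fun _ => Ω) z w)
      (Fin.snoc (α := fun _ => Fin m) I i : Fin (j + 1) → Fin m)
    have h2 : |(covM ξ (Fin.snoc (α := fun _ => Ω) z w)
        (Fin.snoc (α := fun _ => Fin m) I i : Fin (j + 1) → Fin m)).det| ≤
        (covX ξ (Fin.snoc (α := fun _ => Ω) z w) : ℤ) := by
      rw [Int.abs_eq_natAbs]
      exact_mod_cast h1
    refine le_trans (le_of_eq ?_) h2
    congr 1
    rw [Matrix.det_succ_row _ (Fin.last j), Fin.sum_univ_castSucc]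
    have hlast : (covM ξ (Fin.snoc (α := fun _ => Ω) z w)
        (Fin.snoc (α := fun _ => Fin m) I i : Fin (j + 1) → Fin m)) (Fin.last j) (Fin.last j) =
        ξ w i := by
      simp [covM]
    have hrow : ∀ b : Fin j, (covM ξ (Fin.snoc (α := fun _ => Ω) z w)
        (Fin.snoc (α := fun _ => Fin m) I i : Fin (j + 1) → Fin m)) (Fin.last j) b.castSucc =
        ξ w (I b) := by
      intro b
      simp [covM]
    have hsub : ∀ b' : Fin (j + 1), (covM ξ (Fin.snoc (α := fun _ => Ω) z w)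
        (Fin.snoc (α := fun _ => Fin m) I i : Fin (j + 1) → Fin m)).submatrix
          (Fin.last j).succAbove b'.succAbove =
        covM ξ z (fun b => (Fin.snoc (α := fun _ => Fin m) I i : Fin (j + 1) → Fin m)
          (b'.succAbove b)) := by
      intro b'
      ext a b
      simp [covM, Matrix.submatrix_apply]
    have hsub2 : covM ξ z (fun b => (Fin.snoc (α := fun _ => Fin m) I i : Fin (j + 1) → Fin m)
          ((Fin.last j).succAbove b)) = covM ξ z I := by
      ext a b
      simp [covM]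
    rw [hlast, hsub (Fin.last j), hsub2]
    have hsgn : (-1 : ℤ) ^ (((Fin.last j : Fin (j + 1)) : ℕ) + ((Fin.last j : Fin (j + 1)) : ℕ)) =
        1 := by
      rw [← two_mul, pow_mul]; norm_num
    rw [hsgn, one_mul]
    have hs : ∑ b : Fin j, (-1 : ℤ) ^ (((Fin.last j : Fin (j + 1)) : ℕ) +
          ((b.castSucc : Fin (j + 1)) : ℕ)) *
        (covM ξ (Fin.snoc (α := fun _ => Ω) z w)
          (Fin.snoc (α := fun _ => Fin m) I i : Fin (j + 1) → Fin m)) (Fin.last j) b.castSucc *
        ((covM ξ (Fin.snoc (α := fun _ => Ω) z w)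
          (Fin.snoc (α := fun _ => Fin m) I i : Fin (j + 1) → Fin m)).submatrix
          (Fin.last j).succAbove b.castSucc.succAbove).det =
        -∑ b, (-((-1) ^ (((Fin.last j : Fin (j + 1)) : ℕ) + ((b.castSucc : Fin (j + 1)) : ℕ)) *
          (covM ξ z (fun b' => (Fin.snoc (α := fun _ => Fin m) I i : Fin (j + 1) → Fin m)
            ((b.castSucc : Fin (j + 1)).succAbove b'))).det)) * ξ w (I b) := by
      rw [← Finset.sum_neg_distrib]
      refine Finset.sum_congr rfl fun b _ => ?_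
      rw [hrow b, hsub b.castSucc]
      ring
    rw [hs]
    ring

/-- the linear relation confines the cell -/
theorem cov_cell (j : ℕ) (s : ℕ) (hs : 0 < s) (Δ : ℤ) (hΔ : Δ ≠ 0) (e x : Fin j → ℤ) (t : ℤ)
    (he : ∀ b, |e b| ≤ |Δ|) (h : |Δ * t - ∑ b, e b * x b| ≤ s * |Δ|) :
    t / (s : ℤ) ∈ Finset.Icc (⌊∑ b, ((e b : ℝ) / Δ) * ((x b / (s : ℤ) : ℤ) : ℝ)⌋ - (j + 1 : ℕ))
      (⌊∑ b, ((e b : ℝ) / Δ) * ((x b / (s : ℤ) : ℤ) : ℝ)⌋ + (j + 1 : ℕ)) := by
  have hsr : (0 : ℝ) < s := by exact_mod_cast hs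
  have hΔr : (0 : ℝ) < |(Δ : ℝ)| := abs_pos.2 (by exact_mod_cast hΔ)
  set α : ℝ := ∑ b, ((e b : ℝ) / Δ) * ((x b / (s : ℤ) : ℤ) : ℝ) with hα
  have h1 : |(t : ℝ) - ∑ b, ((e b : ℝ) / Δ) * (x b : ℝ)| ≤ s := by
    have h2 : |(Δ : ℝ) * t - ∑ b, (e b : ℝ) * (x b : ℝ)| ≤ s * |(Δ : ℝ)| := by exact_mod_cast h
    have h3 : (Δ : ℝ) * ((t : ℝ) - ∑ b, ((e b : ℝ) / Δ) * (x b : ℝ)) =
        (Δ : ℝ) * t - ∑ b, (e b : ℝ) * (x b : ℝ) := by
      rw [mul_sub, Finset.mul_sum]
      congr 1
      refine Finset.sum_congr rfl fun b _ => ?_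
      have : (Δ : ℝ) ≠ 0 := by exact_mod_cast hΔ
      field_simp
    rw [← h3, abs_mul, mul_comm] at h2
    exact le_of_mul_le_mul_right h2 hΔr
  have h4 : |∑ b, ((e b : ℝ) / Δ) * (x b : ℝ) - s * α| ≤ j * s := by
    rw [hα, Finset.mul_sum, ← Finset.sum_sub_distrib]
    refine (Finset.abs_sum_le_sum_abs _ _).trans ?_
    calc ∑ b : Fin j, |((e b : ℝ) / Δ) * (x b : ℝ) - s * (((e b : ℝ) / Δ) *
        ((x b / (s : ℤ) : ℤ) : ℝ))| ≤ ∑ b : Fin j, (s : ℝ) := by
          refine Finset.sum_le_sum fun b _ => ?_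
          have e1 : ((e b : ℝ) / Δ) * (x b : ℝ) - s * (((e b : ℝ) / Δ) *
              ((x b / (s : ℤ) : ℤ) : ℝ)) = ((e b : ℝ) / Δ) * ((x b % (s : ℤ) : ℤ) : ℝ) := by
            have h5 : (x b : ℝ) = s * ((x b / (s : ℤ) : ℤ) : ℝ) + ((x b % (s : ℤ) : ℤ) : ℝ) := by
              have := Int.mul_ediv_add_emod (x b) s
              exact_mod_cast this.symm
            nth_rewrite 1 [h5]
            ring
          rw [e1, abs_mul, abs_div]
          have h6 : |(e b : ℝ)| / |(Δ : ℝ)| ≤ 1 := by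
            rw [div_le_one hΔr]
            exact_mod_cast he b
          have h7 : |((x b % (s : ℤ) : ℤ) : ℝ)| ≤ s := by
            have h8 := Int.emod_nonneg (x b) (show (s : ℤ) ≠ 0 by exact_mod_cast hs.ne')
            have h9 := Int.emod_lt_of_pos (x b) (show (0 : ℤ) < s by exact_mod_cast hs)
            rw [abs_of_nonneg (by exact_mod_cast h8)]
            exact_mod_cast h9.le
          calc |(e b : ℝ)| / |(Δ : ℝ)| * |((x b % (s : ℤ) : ℤ) : ℝ)| ≤ 1 * s :=
                mul_le_mul h6 h7 (abs_nonneg _) zero_le_one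
            _ = s := one_mul _
      _ = j * s := by rw [Finset.sum_const, Finset.card_univ, Fintype.card_fin, nsmul_eq_mul]
  have h5 : |(t : ℝ) - s * α| ≤ (j + 1) * s := by
    calc |(t : ℝ) - s * α| = |((t : ℝ) - ∑ b, ((e b : ℝ) / Δ) * (x b : ℝ)) +
        (∑ b, ((e b : ℝ) / Δ) * (x b : ℝ) - s * α)| := by congr 1; ring
      _ ≤ _ := abs_add_le _ _
      _ ≤ s + j * s := add_le_add h1 h4
      _ = (j + 1) * s := by ring
  have h6 := abs_le.1 h5
  have h7 : (t : ℝ) / s ≤ α + (j + 1) := by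
    rw [div_le_iff₀ hsr]; linarith [h6.2]
  have h8 : α - (j + 1) ≤ (t : ℝ) / s := by
    rw [le_div_iff₀ hsr]; linarith [h6.1]
  have h9 : t / (s : ℤ) = ⌊(t : ℝ) / s⌋ := by
    have := Int.floor_div_natCast (t : ℝ) s
    rw [Int.floor_intCast] at this
    exact this.symm
  rw [h9, Finset.mem_Icc]
  constructor
  · have := Int.floor_le_floor h8
    rw [show α - ((j : ℝ) + 1) = α - ((j + 1 : ℕ) : ℝ) by push_cast; ring,
      Int.floor_sub_natCast] at this
    exact this
  · have := Int.floor_le_floor h7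
    rw [show α + ((j : ℝ) + 1) = α + ((j + 1 : ℕ) : ℝ) by push_cast; ring,
      Int.floor_add_natCast] at this
    exact this

/-- counting the cells -/
theorem cov_count {Ω : Type} {m : ℕ} (ξ : Ω → Fin m → ℤ) (Z0 : Finset Ω) (M s : ℕ) (hs : 0 < s)
    (hM : ∀ ω ∈ Z0, ∀ c, |ξ ω c| ≤ M) {j : ℕ} (z : Fin j → Ω) (hz : 0 < covX ξ z)
    (hZ0 : ∀ w ∈ Z0, covX ξ (Fin.snoc (α := fun _ => Ω) z w) ≤ s * covX ξ z) :
    (Z0.image (fun ω c => ξ ω c / (s : ℤ))).card ≤ (2 * (M / s) + 2) ^ j * (2 * j + 3) ^ m := by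
  classical
  obtain ⟨I, hI⟩ := covX_exists ξ z hz
  choose e he1 he2 using cov_expand ξ z I
  have hΔ : (covM ξ z I).det ≠ 0 := by
    intro h0
    rw [h0] at hI
    simp at hI
    omega
  set T : Finset (Fin j → ℤ) := Fintype.piFinset
    (fun _ => Finset.Icc (-((M / s : ℕ) : ℤ) - 1) ((M / s : ℕ) : ℤ)) with hT
  set F : (Fin j → ℤ) → Finset (Fin m → ℤ) := fun κ => Fintype.piFinset (fun i =>
    Finset.Icc (⌊∑ b, ((e i b : ℝ) / ((covM ξ z I).det : ℤ)) * ((κ b : ℤ) : ℝ)⌋ - (j + 1 : ℕ))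
      (⌊∑ b, ((e i b : ℝ) / ((covM ξ z I).det : ℤ)) * ((κ b : ℤ) : ℝ)⌋ + (j + 1 : ℕ))) with hF
  have hsub : Z0.image (fun ω c => ξ ω c / (s : ℤ)) ⊆ T.biUnion F := by
    intro κ hκ
    obtain ⟨ω, hω, rfl⟩ := Finset.mem_image.1 hκ
    rw [Finset.mem_biUnion]
    refine ⟨fun b => ξ ω (I b) / (s : ℤ), ?_, ?_⟩
    · rw [hT, Fintype.mem_piFinset]
      intro b
      have h1 := abs_le.1 (hM ω hω (I b))
      have hsz : (0 : ℤ) < s := by exact_mod_cast hs
      rw [Finset.mem_Icc]
      have e1 : ((M / s : ℕ) : ℤ) = (M : ℤ) / s := by exact_mod_cast rfl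
      constructor
      · have h2 := Int.ediv_le_ediv hsz h1.1
        have h3 : -((M : ℤ) / s) - 1 ≤ -(M : ℤ) / s := by
          have h4 : (-((M : ℤ) / s) - 1) ≤ -(M : ℤ) / s := by
            rw [Int.le_ediv_iff_mul_le hsz]
            have h5 := Int.emod_lt_of_pos (M : ℤ) hsz
            have h6 := Int.mul_ediv_add_emod (M : ℤ) s
            nlinarith only [h5, h6]
          exact h4
        rw [e1]
        exact h3.trans h2
      · have h2 := Int.ediv_le_ediv hsz h1.2
        rw [e1]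
        exact h2
    · rw [hF, Fintype.mem_piFinset]
      intro i
      refine cov_cell j s hs (covM ξ z I).det hΔ (e i) (fun b => ξ ω (I b)) (ξ ω i) ?_ ?_
      · intro b
        have h1 := he1 i b
        rw [← hI] at h1
        rw [Int.abs_eq_natAbs, Int.abs_eq_natAbs]
        exact_mod_cast h1
      · refine (he2 i ω).trans ?_
        rw [Int.abs_eq_natAbs, hI]
        exact_mod_cast hZ0 ω hω
  refine (Finset.card_le_card hsub).trans ?_
  have hT' : T.card = (2 * (M / s) + 2) ^ j := by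
    rw [hT, Fintype.card_piFinset, Finset.prod_const, Int.card_Icc, Finset.card_univ,
      Fintype.card_fin]
    congr 1
    omega
  rw [← hT']
  refine Finset.card_biUnion_le_card_mul _ _ _ fun κ _ => ?_
  rw [hF]
  simp only
  rw [Fintype.card_piFinset]
  refine (Finset.prod_le_pow_card _ _ (2 * j + 3) fun i _ => ?_).trans (by simp)
  rw [Int.card_Icc]
  omega

theorem st_COV : ST_COV := by
  intro m p hp
  refine ⟨2 ^ p * (2 * p + 3) ^ m, ?_⟩
  intro Ω Z ξ M s δ hZ hs hsM hδ hξ hcard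
  classical
  -- the main alternative
  by_cases hcl : ∃ (j : ℕ) (z : Fin j → Ω), j < p ∧ (∀ a, z a ∈ Z) ∧ 0 < covX ξ z ∧
      (1 - δ) * Z.card ≤ ((Z.filter fun w =>
        covX ξ (Fin.snoc (α := fun _ => Ω) z w) ≤ s * covX ξ z).card : ℝ)
  · obtain ⟨j, z, hj, hz, hpos, hbig⟩ := hcl
    refine ⟨Z.filter fun w => covX ξ (Fin.snoc (α := fun _ => Ω) z w) ≤ s * covX ξ z,
      Finset.filter_subset _ _, hbig, ?_⟩
    refine (cov_count ξ _ M s hs (fun ω hω => hξ ω (Finset.mem_filter.1 hω).1) z hpos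
      (fun w hw => (Finset.mem_filter.1 hw).2)).trans ?_
    have h1 : (2 * (M / s) + 2) ^ j = 2 ^ j * (M / s + 1) ^ j := by
      rw [← mul_pow]; congr 1
    rw [h1]
    have h2 : 2 ^ j ≤ 2 ^ p := Nat.pow_le_pow_right (by norm_num) hj.le
    have h3 : (M / s + 1) ^ j ≤ (M / s + 1) ^ (p - 1) :=
      Nat.pow_le_pow_right (Nat.succ_pos _) (by omega)
    have h4 : (2 * j + 3) ^ m ≤ (2 * p + 3) ^ m := Nat.pow_le_pow_left (by omega) _
    calc 2 ^ j * (M / s + 1) ^ j * (2 * j + 3) ^ m ≤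
        2 ^ p * (M / s + 1) ^ (p - 1) * (2 * p + 3) ^ m :=
          Nat.mul_le_mul (Nat.mul_le_mul h2 h3) h4
      _ = 2 ^ p * (2 * p + 3) ^ m * (M / s + 1) ^ (p - 1) := by ring
  · exfalso
    have hstep : ∀ (j : ℕ) (z : Fin j → Ω), j < p → (∀ a, z a ∈ Z) → 0 < covX ξ z →
        δ * Z.card < ((Z.filter fun w =>
          s * covX ξ z < covX ξ (Fin.snoc (α := fun _ => Ω) z w)).card : ℝ) := by
      intro j z hj hz hpos
      by_contra hcon
      refine hcl ⟨j, z, hj, hz, hpos, ?_⟩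
      have h1 := Finset.card_filter_add_card_filter_not (s := Z)
        (fun w => covX ξ (Fin.snoc (α := fun _ => Ω) z w) ≤ s * covX ξ z)
      have h2 : (Z.filter fun w => ¬ covX ξ (Fin.snoc (α := fun _ => Ω) z w) ≤ s * covX ξ z) =
          Z.filter fun w => s * covX ξ z < covX ξ (Fin.snoc (α := fun _ => Ω) z w) :=
        Finset.filter_congr fun w _ => not_le
      rw [h2] at h1
      have h3 : ((Z.filter fun w => covX ξ (Fin.snoc (α := fun _ => Ω) z w) ≤
          s * covX ξ z).card : ℝ) + ((Z.filter fun w =>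
          s * covX ξ z < covX ξ (Fin.snoc (α := fun _ => Ω) z w)).card : ℝ) = Z.card := by
        exact_mod_cast h1
      have h4 := not_lt.1 hcon
      linarith
    have hind : ∀ j : ℕ, j ≤ p → (δ * Z.card) ^ j ≤
        (((Fintype.piFinset (fun _ : Fin j => Z)).filter (fun z =>
          s ^ j ≤ covX ξ z ∧ (0 < j → s ^ j < covX ξ z))).card : ℝ) := by
      intro j
      induction j with
      | zero =>
        intro _
        have h1 : (((Fintype.piFinset (fun _ : Fin 0 => Z)).filter (fun z =>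
            s ^ 0 ≤ covX ξ z ∧ (0 < 0 → s ^ 0 < covX ξ z)))).Nonempty := by
          refine ⟨Fin.elim0, Finset.mem_filter.2 ⟨?_, ?_, fun h => absurd h (by simp)⟩⟩
          · rw [Fintype.mem_piFinset]
            exact fun a => a.elim0
          · have := covX_le ξ (Fin.elim0 : Fin 0 → Ω) (Fin.elim0 : Fin 0 → Fin m)
            rw [Matrix.det_isEmpty] at this
            simpa using this
        have h2 := Finset.card_pos.2 h1
        rw [pow_zero]
        exact_mod_cast h2
      | succ j ih =>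
        intro hj
        have ih' := ih (by omega)
        set G := (Fintype.piFinset (fun _ : Fin j => Z)).filter (fun z =>
          s ^ j ≤ covX ξ z ∧ (0 < j → s ^ j < covX ξ z)) with hG
        have hs1 : 0 < s ^ j := pow_pos hs j
        have hinj : (G.sigma (fun z => Z.filter fun w =>
            s * covX ξ z < covX ξ (Fin.snoc (α := fun _ => Ω) z w))).card ≤
            ((Fintype.piFinset (fun _ : Fin (j + 1) => Z)).filter (fun z =>
              s ^ (j + 1) ≤ covX ξ z ∧ (0 < j + 1 → s ^ (j + 1) < covX ξ z))).card := by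
          refine Finset.card_le_card_of_injOn
            (fun x : (_ : Fin j → Ω) × Ω => Fin.snoc (α := fun _ => Ω) x.1 x.2) ?_ ?_
          · intro x hx
            have hx' := Finset.mem_sigma.1 hx
            have h1 := Finset.mem_filter.1 hx'.1
            have h2 := Finset.mem_filter.1 hx'.2
            have h3 : s ^ (j + 1) < covX ξ (Fin.snoc (α := fun _ => Ω) x.1 x.2) := by
              calc s ^ (j + 1) = s * s ^ j := by ring
                _ ≤ s * covX ξ x.1 := Nat.mul_le_mul_left s h1.2.1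
                _ < _ := h2.2
            refine Finset.mem_coe.2 (Finset.mem_filter.2 ⟨?_, h3.le, fun _ => h3⟩)
            rw [Fintype.mem_piFinset]
            intro a
            refine Fin.lastCases ?_ (fun a' => ?_) a
            · simpa using h2.1
            · have := Fintype.mem_piFinset.1 h1.1 a'
              simpa using this
          · intro x _ y _ hxy
            have h1 : x.2 = y.2 := by
              have := congrFun hxy (Fin.last j)
              simpa using this
            have h2 : x.1 = y.1 := by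
              funext a
              have := congrFun hxy a.castSucc
              simpa using this
            exact Sigma.ext h2 (heq_of_eq h1)
        rw [Finset.card_sigma] at hinj
        have h5 : (δ * Z.card) * (G.card : ℝ) ≤ ((∑ z ∈ G, (Z.filter fun w =>
            s * covX ξ z < covX ξ (Fin.snoc (α := fun _ => Ω) z w)).card : ℕ) : ℝ) := by
          push_cast
          calc (δ * Z.card) * (G.card : ℝ) = ∑ z ∈ G, (δ * Z.card) := by
                rw [Finset.sum_const, nsmul_eq_mul, mul_comm]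
            _ ≤ _ := by
                refine Finset.sum_le_sum fun z hz => ?_
                have h1 := Finset.mem_filter.1 hz
                exact (hstep j z (by omega) (fun a => Fintype.mem_piFinset.1 h1.1 a)
                  (lt_of_lt_of_le hs1 h1.2.1)).le
        have hZ0 : (0 : ℝ) ≤ δ * Z.card := by positivity
        calc (δ * Z.card) ^ (j + 1) = (δ * Z.card) * (δ * Z.card) ^ j := by ring
          _ ≤ (δ * Z.card) * (G.card : ℝ) := mul_le_mul_of_nonneg_left ih' hZ0
          _ ≤ _ := h5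
          _ ≤ _ := by exact_mod_cast hinj
    have hfin := hind p le_rfl
    refine absurd hcard (not_lt.2 (hfin.trans ?_))
    have : ((Fintype.piFinset (fun _ : Fin p => Z)).filter (fun z =>
        s ^ p ≤ covX ξ z ∧ (0 < p → s ^ p < covX ξ z))).card ≤
        ((Fintype.piFinset (fun _ : Fin p => Z)).filter (fun z => ∃ I : Fin p → Fin m,
          (s : ℤ) ^ p < |(Matrix.of fun i j : Fin p => ξ (z i) (I j)).det|)).card := by
      refine Finset.card_le_card fun z hz => ?_
      have h1 := Finset.mem_filter.1 hz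
      refine Finset.mem_filter.2 ⟨h1.1, ?_⟩
      have h2 := h1.2.2 (by omega)
      obtain ⟨I, hI⟩ := covX_exists ξ z (by omega)
      refine ⟨I, ?_⟩
      have h3 : (Matrix.of fun i j : Fin p => ξ (z i) (I j)) = covM ξ z I := rfl
      rw [h3, Int.abs_eq_natAbs, hI]
      exact_mod_cast h2
    exact_mod_cast this

end Pool.Agent.Helper70.SK
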