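import Pool.Agent.Helper70.SK.Stmts
import Pool.Agent.Helper70.SK.Lib

set_option autoImplicit false

/-! Module LAY. -/

namespace Pool.Agent.Helper70.SK

open Finset Pool.Agent.Helper70.DK MeasureTheory

theorem lay_pow (a b s : ℝ) (hb : 0 ≤ b) (hba : b ≤ a) (ha : a ≤ 2 * s) (hs : 0 < s) (q : ℕ) :
    a ^ q - b ^ q ≤ q * (a - b) * (2 * s) ^ q / s := by
  induction q with
  | zero => simp
  | succ q ih =>
    have hab : 0 ≤ a - b := by linarith
    have h2s : 0 ≤ 2 * s := by linarith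
    have h1 : b ^ q ≤ (2 * s) ^ q := pow_le_pow_left₀ hb (by linarith) q
    have h0 : 0 ≤ (2 * s) ^ q := pow_nonneg h2s q
    have hq : (0 : ℝ) ≤ q := Nat.cast_nonneg q
    have h3 : 0 ≤ a ^ q - b ^ q := by
      have := pow_le_pow_left₀ hb hba q
      linarith
    calc a ^ (q + 1) - b ^ (q + 1) = a * (a ^ q - b ^ q) + (a - b) * b ^ q := by ring
      _ ≤ 2 * s * (a ^ q - b ^ q) + (a - b) * (2 * s) ^ q :=
          add_le_add (mul_le_mul_of_nonneg_right ha h3) (mul_le_mul_of_nonneg_left h1 hab)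
      _ ≤ 2 * s * (q * (a - b) * (2 * s) ^ q / s) + 2 * ((a - b) * (2 * s) ^ q) := by
          have h4 := mul_le_mul_of_nonneg_left ih h2s
          have h5 : 0 ≤ (a - b) * (2 * s) ^ q := mul_nonneg hab h0
          linarith
      _ = ((q + 1 : ℕ) : ℝ) * (a - b) * (2 * s) ^ (q + 1) / s := by
          push_cast
          field_simp
          ring

theorem lay_mem {q : ℕ} (s : ℤ) (y S : Fin q → ℤ) :
    S ∈ Bx s y ↔ ∀ r, S r ≤ y r ∧ y r < S r + s := by
  unfold Bx
  rw [Fintype.mem_piFinset]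
  constructor
  · intro h r
    have := Finset.mem_Ioc.1 (h r)
    omega
  · intro h r
    have := h r
    exact Finset.mem_Ioc.2 (by omega)

theorem lay_count {Ω : Type} {q : ℕ} (s h : ℕ) (hs : 0 < s) (hh : 2 * h ≤ s) (Z : Finset Ω)
    (y : Ω → Fin q → ℤ) (A : Finset (Fin q → ℤ)) (ω : Ω) (hω : ω ∈ Z) :
    by classical exact
    ((A.filter (fun S => ω ∈ Ly Z y s h S)).card : ℝ) ≤ (s : ℝ) ^ q * (4 * q * 2 ^ q * h / s) := by
  classical
  set F1 : Finset (Fin q → ℤ) :=
    Fintype.piFinset (fun r => Finset.Ioc (y ω r - s - h) (y ω r + h)) with hF1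
  set F2 : Finset (Fin q → ℤ) :=
    Fintype.piFinset (fun r => Finset.Ioc (y ω r - s + h) (y ω r - h)) with hF2
  have hsub : F2 ⊆ F1 := by
    intro S hS
    rw [hF2, Fintype.mem_piFinset] at hS
    rw [hF1, Fintype.mem_piFinset]
    intro r
    have := Finset.mem_Ioc.1 (hS r)
    exact Finset.mem_Ioc.2 (by omega)
  have hsub2 : A.filter (fun S => ω ∈ Ly Z y s h S) ⊆ F1 \ F2 := by
    intro S hS
    have h1 := (Finset.mem_filter.1 hS).2
    unfold Ly at h1
    have h2 := (Finset.mem_filter.1 h1).2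
    rw [Finset.mem_sdiff, hF1, hF2, Fintype.mem_piFinset, Fintype.mem_piFinset]
    constructor
    · intro r
      have := h2.1 r
      exact Finset.mem_Ioc.2 (by omega)
    · intro h3
      refine h2.2 fun r => ?_
      have := Finset.mem_Ioc.1 (h3 r)
      omega
  have hc1 : F1.card = (s + 2 * h) ^ q := by
    rw [hF1, Fintype.card_piFinset, Finset.prod_congr rfl (fun r _ => by
      rw [Int.card_Ioc, show (y ω r + h - (y ω r - s - h)).toNat = s + 2 * h by omega])]
    simp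
  have hc2 : F2.card = (s - 2 * h) ^ q := by
    rw [hF2, Fintype.card_piFinset, Finset.prod_congr rfl (fun r _ => by
      rw [Int.card_Ioc, show (y ω r - h - (y ω r - s + h)).toNat = s - 2 * h by omega])]
    simp
  have h1 : ((A.filter (fun S => ω ∈ Ly Z y s h S)).card : ℝ) ≤ ((F1 \ F2).card : ℝ) := by
    exact_mod_cast Finset.card_le_card hsub2
  have h2 : ((F1 \ F2).card : ℝ) = (s + 2 * h : ℝ) ^ q - (s - 2 * h : ℝ) ^ q := by
    rw [Finset.cast_card_sdiff hsub, hc1, hc2]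
    push_cast [Nat.cast_sub hh]
    rfl
  have hsr : (0 : ℝ) < s := by exact_mod_cast hs
  have hhr : (2 * h : ℝ) ≤ s := by exact_mod_cast hh
  have hh0 : (0 : ℝ) ≤ h := Nat.cast_nonneg h
  have h3 := lay_pow (s + 2 * h : ℝ) (s - 2 * h : ℝ) s (by linarith) (by linarith) (by linarith)
    hsr q
  calc ((A.filter (fun S => ω ∈ Ly Z y s h S)).card : ℝ) ≤
      (s + 2 * h : ℝ) ^ q - (s - 2 * h : ℝ) ^ q := h1.trans h2.le
    _ ≤ q * ((s + 2 * h : ℝ) - (s - 2 * h : ℝ)) * (2 * s) ^ q / s := h3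
    _ = (s : ℝ) ^ q * (4 * q * 2 ^ q * h / s) := by rw [mul_pow]; ring

theorem st_LAY : ST_LAY := by
  intro Ω q s h Z y φ3 hs hh hφ
  classical
  set A : Finset (Fin q → ℤ) := Z.biUnion (fun ω => Bx (s : ℤ) (y ω)) with hA
  have hAsub : ∀ ω ∈ Z, ∀ S ∈ Bx (s : ℤ) (y ω), S ∈ A := fun ω hω S hS =>
    Finset.mem_biUnion.2 ⟨ω, hω, hS⟩
  have hφi : φ3 * ∑ ω ∈ Z, (((Bx (s : ℤ) (y ω)).filter (fun S =>
      φ3 * ((Qb Z y s S).card : ℝ) < ((Ly Z y s h S).card : ℝ))).card : ℝ) ≤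
      ∑ S ∈ A, ((Ly Z y s h S).card : ℝ) := by
    have e1 : ∑ ω ∈ Z, (((Bx (s : ℤ) (y ω)).filter (fun S =>
        φ3 * ((Qb Z y s S).card : ℝ) < ((Ly Z y s h S).card : ℝ))).card : ℝ) =
        ∑ S ∈ A, (if φ3 * ((Qb Z y s S).card : ℝ) < ((Ly Z y s h S).card : ℝ) then
          ((Qb Z y s S).card : ℝ) else 0) := by
      have e2 : ∀ ω ∈ Z, (((Bx (s : ℤ) (y ω)).filter (fun S =>
          φ3 * ((Qb Z y s S).card : ℝ) < ((Ly Z y s h S).card : ℝ))).card : ℝ) =
          ∑ S ∈ A, (if (φ3 * ((Qb Z y s S).card : ℝ) < ((Ly Z y s h S).card : ℝ) ∧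
            S ∈ Bx (s : ℤ) (y ω)) then (1 : ℝ) else 0) := by
        intro ω hω
        rw [← Finset.sum_filter, Finset.sum_const, nsmul_eq_mul, mul_one]
        congr 2
        ext S
        simp only [Finset.mem_filter]
        constructor
        · exact fun hS => ⟨hAsub ω hω S hS.1, hS.2, hS.1⟩
        · exact fun hS => ⟨hS.2.2, hS.2.1⟩
      rw [Finset.sum_congr rfl e2, Finset.sum_comm]
      refine Finset.sum_congr rfl fun S _ => ?_
      by_cases hb : φ3 * ((Qb Z y s S).card : ℝ) < ((Ly Z y s h S).card : ℝ)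
      · simp only [hb, true_and, if_true]
        rw [← Finset.sum_filter, Finset.sum_const, nsmul_eq_mul, mul_one]
        congr 2
        unfold Qb
        ext ω
        simp only [Finset.mem_filter, lay_mem]
      · simp only [hb, false_and, if_false, Finset.sum_const_zero]
    rw [e1, Finset.mul_sum]
    refine Finset.sum_le_sum fun S _ => ?_
    by_cases hb : φ3 * ((Qb Z y s S).card : ℝ) < ((Ly Z y s h S).card : ℝ)
    · rw [if_pos hb]
      exact hb.le
    · rw [if_neg hb, mul_zero]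
      exact Nat.cast_nonneg _
  have h2 : ∑ S ∈ A, ((Ly Z y s h S).card : ℝ) ≤
      ∑ ω ∈ Z, (s : ℝ) ^ q * (4 * q * 2 ^ q * h / s) := by
    have e3 : ∀ S ∈ A, ((Ly Z y s h S).card : ℝ) =
        ∑ ω ∈ Z, (if ω ∈ Ly Z y s h S then (1 : ℝ) else 0) := by
      intro S _
      rw [← Finset.sum_filter, Finset.sum_const, nsmul_eq_mul, mul_one]
      congr 2
      ext ω
      simp only [Finset.mem_filter]
      exact ⟨fun hω => ⟨(Finset.mem_filter.1 hω).1, hω⟩, fun hω => hω.2⟩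
    rw [Finset.sum_congr rfl e3, Finset.sum_comm]
    refine Finset.sum_le_sum fun ω hω => ?_
    rw [← Finset.sum_filter, Finset.sum_const, nsmul_eq_mul, mul_one]
    exact lay_count s h hs hh Z y A ω hω
  have h3 := hφi.trans h2
  rw [Finset.sum_const, nsmul_eq_mul] at h3
  rw [← mul_le_mul_iff_right₀ hφ]
  refine h3.trans (le_of_eq ?_)
  have hsr : (s : ℝ) ≠ 0 := by exact_mod_cast hs.ne'
  field_simp

end Pool.Agent.Helper70.SK
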