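import Pool.Agent.Helper38.SK.S2B1
import Pool.Agent.Helper47.DK.E5

set_option autoImplicit false

/-! Module S2B. -/

namespace Pool.Agent.Helper70.SK

open Finset Pool.Agent.Helper70.DK MeasureTheory

open Classical in
/-- the fibre of a good point -/
theorem s2b_fibre (hPK : ST_PK) (hGEO : ST_GEO) (m q p Cm : ℕ) (hp : 1 ≤ p) (hpm : p ≤ m)
    (hCm : ∀ (Ω : Type) (Z : Finset Ω) (ξ : Ω → Fin m → ℤ) (M s : ℕ) (δ : ℝ),
      Z.Nonempty → 0 < s → s ≤ M → 0 < δ → (∀ ω ∈ Z, ∀ c, |ξ ω c| ≤ M) →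
      (((Fintype.piFinset (fun _ : Fin p => Z)).filter (fun z => ∃ I : Fin p → Fin m,
        (s : ℤ) ^ p < |(Matrix.of fun i j : Fin p => ξ (z i) (I j)).det|)).card : ℝ) <
          (δ * Z.card) ^ p →
      ∃ Z0 ⊆ Z, (1 - δ) * Z.card ≤ Z0.card ∧
        (Z0.image (fun ω c => ξ ω c / (s : ℤ))).card ≤ Cm * (M / s + 1) ^ (p - 1))
    (B : ℕ) (R κ D C : ℝ) (hB : 2 ≤ B) (hR : 0 ≤ R) (hD : 0 ≤ D) (σ : Sy m q) (hσ : σ.Ok B R κ D C)
    (k W kap : ℕ) (hkap : kap = W / (4 * m)) (hkn : k + W ≤ σ.n) (δ : ℝ) (hδ : 0 < δ)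
    (z0 : ℕ × (Fin m → ℤ)) (hz0 : z0 ∈ σ.GX B)
    (hgood : (((Fintype.piFinset (fun _ : Fin p => Finset.range (σ.N0 B))).filter
      (fun j => ¬ σ.Gt B k (k + W) p (z0, j))).card : ℝ) < (δ * σ.N0 B) ^ p) :
    ent (fib (σ.GX B) (σ.ff B k (k + W)) (σ.ff B k (k + W) z0)) (fun z => σ.tr B (k + kap) z.2) ≤
      Real.log 2 + (Real.log ((2 ^ m * (Cm + 1) * 2 ^ (p - 1) : ℕ) : ℝ) +
        ((p - 1 : ℕ) : ℝ) * (kap * Real.log B)) + δ * (m * (kap * Real.log B)) := by
  obtain ⟨_, _, g3, g4⟩ := hGEO m q B R κ D C σ hB hR hD hσ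
  have hBpos : 0 < B := by omega
  have hlogB : 0 < Real.log B := Real.log_pos (by exact_mod_cast hB)
  have hm0 : 0 < m := by omega
  have hkm : kap * m ≤ W / 4 := by
    rw [hkap, Nat.le_div_iff_mul_le (by norm_num)]
    calc W / (4 * m) * m * 4 = W / (4 * m) * (4 * m) := by ring
      _ ≤ W := Nat.div_mul_le_self _ _
  have hkW : kap ≤ W := by
    have h1 : kap ≤ kap * m := Nat.le_mul_of_pos_right _ hm0
    omega
  set K := k + W with hK
  set Z := fib (σ.GX B) (σ.ff B k K) (σ.ff B k K z0) with hZ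
  have hz0Z : z0 ∈ Z := e8_mem_fib.2 ⟨hz0, rfl⟩
  have hZmem : ∀ z ∈ Z, z.2 ∈ σ.X B ∧ σ.tr B k z.2 = σ.tr B k z0.2 := by
    intro z hz
    have h1 := e8_mem_fib.1 hz
    have h2 : z ∈ σ.G ×ˢ σ.X B := h1.1
    refine ⟨(Finset.mem_product.1 h2).2, ?_⟩
    have h3 := h1.2
    unfold Sy.ff at h3
    exact (Prod.ext_iff.1 (Prod.ext_iff.1 h3).2).1
  -- the corner has the same cells
  have hco : ∀ i, i ≤ K → ∀ x ∈ σ.X B, σ.tr B i (σ.co B K x) = σ.tr B i x := by
    intro i hi x hx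
    rw [g4 i K hi hkn, g4 i K hi hkn, (g3 K hkn x hx).2.1]
  set ξ : ℕ × (Fin m → ℤ) → Fin m → ℤ := fun z c => σ.co B K z.2 c - σ.co B K z0.2 c with hξ
  set s : ℕ := B ^ (σ.n - (k + kap)) with hs
  set M : ℕ := B ^ (σ.n - k) with hM
  have hs0 : 0 < s := pow_pos hBpos _
  have hsM : s ≤ M := Nat.pow_le_pow_right hBpos (by omega)
  have hMs : M = s * B ^ kap := by
    rw [hs, hM, ← pow_add]; congr 1; omega
  have hMds : M / s = B ^ kap := by
    rw [hMs]; exact Nat.mul_div_cancel_left _ hs0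
  have hsz : (0 : ℤ) < s := by exact_mod_cast hs0
  have hMz : (0 : ℤ) < M := by
    have : 0 < M := lt_of_lt_of_le hs0 hsM
    exact_mod_cast this
  have htr : ∀ (i : ℕ) (x : Fin m → ℤ) (c : Fin m), σ.tr B i x c = x c / (B : ℤ) ^ (σ.n - i) :=
    fun _ _ _ => rfl
  have hξM : ∀ z ∈ Z, ∀ c, |ξ z c| ≤ M := by
    intro z hz c
    obtain ⟨h1, h2⟩ := hZmem z hz
    have h3 := hco k (by omega) z.2 h1
    have h4 := hco k (by omega) z0.2 (hZmem z0 hz0Z).1
    have h5 : σ.co B K z.2 c / (M : ℤ) = σ.co B K z0.2 c / (M : ℤ) := by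
      have h6 := congrFun (h3.trans (h2.trans h4.symm)) c
      rw [htr, htr] at h6
      rw [hM]; push_cast; exact h6
    have a1 := Int.mul_ediv_add_emod (σ.co B K z.2 c) M
    have a2 := Int.mul_ediv_add_emod (σ.co B K z0.2 c) M
    have a3 := Int.emod_nonneg (σ.co B K z.2 c) hMz.ne'
    have a4 := Int.emod_lt_of_pos (σ.co B K z.2 c) hMz
    have a5 := Int.emod_nonneg (σ.co B K z0.2 c) hMz.ne'
    have a6 := Int.emod_lt_of_pos (σ.co B K z0.2 c) hMz
    rw [h5] at a1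
    rw [hξ, abs_le]
    simp only
    constructor <;> linarith only [a1, a2, a3, a4, a5, a6]
  -- the enumeration
  have hZne : Z.Nonempty := ⟨z0, hz0Z⟩
  have hZcard : Z.card ≤ (σ.GX B).card := Finset.card_le_card fun z hz => (e8_mem_fib.1 hz).1
  have hdvd : Z.card ∣ σ.N0 B := Nat.dvd_factorial hZne.card_pos hZcard
  obtain ⟨pk1, pk2⟩ := s2b_pk hPK Z (σ.N0 B) z0 hZne hdvd
  have hN0 : 0 < σ.N0 B := Nat.factorial_pos _
  obtain ⟨c, hc⟩ := hdvd
  have hc0 : 0 < c := Nat.pos_of_ne_zero fun h => by rw [h, mul_zero] at hc; omega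
  have hpk : ∀ ω ∈ Z, ∀ A : Finset ℕ, (∀ j, j ∈ A ↔ j ∈ range (σ.N0 B) ∧ pk Z j z0 = ω) →
      A.card = c := by
    intro ω hω A hA
    have h1 := pk2 ω hω A hA
    have h2 : A.card * Z.card = c * Z.card := by
      rw [h1, hc]; ring
    exact Nat.eq_of_mul_eq_mul_right hZne.card_pos h2
  have hpush := s2b_push' Z (σ.N0 B) c p (fun j => pk Z j z0) pk1 hpk
    (fun z => ∃ I : Fin p → Fin m, (s : ℤ) ^ p < |(Matrix.of fun i j : Fin p => ξ (z i) (I j)).det|)
    ((Fintype.piFinset (fun _ : Fin p => Finset.range (σ.N0 B))).filter (fun j =>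
      ∃ I : Fin p → Fin m, (s : ℤ) ^ p <
        |(Matrix.of fun i j' : Fin p => ξ (pk Z (j i) z0) (I j')).det|))
    ((Fintype.piFinset (fun _ : Fin p => Z)).filter (fun z => ∃ I : Fin p → Fin m,
      (s : ℤ) ^ p < |(Matrix.of fun i j : Fin p => ξ (z i) (I j)).det|))
    (fun j => Finset.mem_filter) (fun z => Finset.mem_filter)
  have hsubG : (Fintype.piFinset (fun _ : Fin p => Finset.range (σ.N0 B))).filter (fun j =>
      ∃ I : Fin p → Fin m, (s : ℤ) ^ p <
        |(Matrix.of fun i j' : Fin p => ξ (pk Z (j i) z0) (I j')).det|) ⊆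
      (Fintype.piFinset (fun _ : Fin p => Finset.range (σ.N0 B))).filter
        (fun j => ¬ σ.Gt B k K p (z0, j)) := by
    intro j hj
    have h1 := Finset.mem_filter.1 hj
    refine Finset.mem_filter.2 ⟨h1.1, ?_⟩
    obtain ⟨I, hI⟩ := h1.2
    intro hGt
    have h2 : |(Matrix.of fun i j' : Fin p => ξ (pk Z (j i) z0) (I j')).det| *
        (B : ℤ) ^ ((K - k) / 2) ≤ (B : ℤ) ^ ((σ.n - k) * p) := hGt I
    have h3 : (s : ℤ) ^ p * (B : ℤ) ^ ((K - k) / 2) <
        |(Matrix.of fun i j' : Fin p => ξ (pk Z (j i) z0) (I j')).det| *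
        (B : ℤ) ^ ((K - k) / 2) := mul_lt_mul_of_pos_right hI (by positivity)
    have h4 : (B : ℤ) ^ ((σ.n - k) * p) ≤ (s : ℤ) ^ p * (B : ℤ) ^ ((K - k) / 2) := by
      have h5 : B ^ ((σ.n - k) * p) ≤ s ^ p * B ^ ((K - k) / 2) := by
        rw [hs, ← pow_mul, ← pow_add]
        refine Nat.pow_le_pow_right hBpos ?_
        have h6 : kap * p ≤ kap * m := Nat.mul_le_mul_left _ hpm
        have h7 : (K - k) / 2 = W / 2 := by rw [hK]; congr 1; omega
        have h8 : (σ.n - k) * p = (σ.n - (k + kap)) * p + kap * p := by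
          rw [← add_mul]; congr 1; omega
        rw [h7, h8]
        have h9 : W / 4 ≤ W / 2 := by omega
        omega
      exact_mod_cast h5
    linarith only [h2, h3, h4]
  have hcardQ : (((Fintype.piFinset (fun _ : Fin p => Z)).filter (fun z => ∃ I : Fin p → Fin m,
      (s : ℤ) ^ p < |(Matrix.of fun i j : Fin p => ξ (z i) (I j)).det|)).card : ℝ) <
        (δ * Z.card) ^ p := by
    have h1 := Finset.card_le_card hsubG
    rw [hpush] at h1
    have h2 : ((c : ℝ) ^ p) * (((Fintype.piFinset (fun _ : Fin p => Z)).filter (fun z =>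
        ∃ I : Fin p → Fin m,
        (s : ℤ) ^ p < |(Matrix.of fun i j : Fin p => ξ (z i) (I j)).det|)).card : ℝ) <
        (c : ℝ) ^ p * (δ * Z.card) ^ p := by
      calc ((c : ℝ) ^ p) * (((Fintype.piFinset (fun _ : Fin p => Z)).filter (fun z =>
          ∃ I : Fin p → Fin m,
          (s : ℤ) ^ p < |(Matrix.of fun i j : Fin p => ξ (z i) (I j)).det|)).card : ℝ) ≤
          (((Fintype.piFinset (fun _ : Fin p => Finset.range (σ.N0 B))).filter
            (fun j => ¬ σ.Gt B k K p (z0, j))).card : ℝ) := by exact_mod_cast h1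
        _ < (δ * σ.N0 B) ^ p := hgood
        _ = (c : ℝ) ^ p * (δ * Z.card) ^ p := by
            rw [hc, ← mul_pow]; push_cast; congr 1; ring
    exact lt_of_mul_lt_mul_left h2 (by positivity)
  obtain ⟨Z0, hZ0, hZ0c, hZ0i⟩ := hCm _ Z ξ M s δ hZne hs0 hsM hδ hξM hcardQ
  -- the values
  set F : Finset (Fin m → ℤ) := Fintype.piFinset (fun c' => Finset.Ico
    (σ.tr B k z0.2 c' * (B : ℤ) ^ kap) ((σ.tr B k z0.2 c' + 1) * (B : ℤ) ^ kap)) with hF
  set F0 : Finset (Fin m → ℤ) := (Z0.image (fun ω c => ξ ω c / (s : ℤ))).biUnion (fun κ' =>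
    Fintype.piFinset (fun c' => {κ' c' + σ.co B K z0.2 c' / (s : ℤ),
      κ' c' + σ.co B K z0.2 c' / (s : ℤ) + 1})) with hF0
  refine s2b_mix Z Z0 _ δ _ _ F F0 hZ0 hZne hZ0c ?_ ?_ ?_ ?_ ?_ ?_
  · intro z hz
    obtain ⟨h1, h2⟩ := hZmem z hz
    rw [hF, Fintype.mem_piFinset]
    intro c'
    have h3 := g4 k (k + kap) (by omega) (by omega) z.2
    rw [h2] at h3
    have h4 := congrFun h3 c'
    have h5 : σ.tr B k z0.2 c' = σ.tr B (k + kap) z.2 c' / (B : ℤ) ^ kap := by
      rw [h4]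
      unfold cl
      congr 2
      omega
    have hP : (0 : ℤ) < (B : ℤ) ^ kap := by positivity
    have a1 := Int.mul_ediv_add_emod (σ.tr B (k + kap) z.2 c') ((B : ℤ) ^ kap)
    have a3 := Int.emod_nonneg (σ.tr B (k + kap) z.2 c') hP.ne'
    have a4 := Int.emod_lt_of_pos (σ.tr B (k + kap) z.2 c') hP
    rw [← h5] at a1
    rw [Finset.mem_Ico]
    constructor <;> nlinarith only [a1, a3, a4]
  · intro z hz
    obtain ⟨h1, h2⟩ := hZmem z (hZ0 hz)
    rw [hF0, Finset.mem_biUnion]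
    refine ⟨fun c' => ξ z c' / (s : ℤ), Finset.mem_image_of_mem _ hz, ?_⟩
    rw [Fintype.mem_piFinset]
    intro c'
    have h3 := hco (k + kap) (by omega) z.2 h1
    have h4 : σ.tr B (k + kap) z.2 c' = σ.co B K z.2 c' / (s : ℤ) := by
      rw [← h3, htr, hs]; push_cast; rfl
    rw [h4, Finset.mem_insert, Finset.mem_singleton]
    exact s2b_div (σ.co B K z.2 c') (σ.co B K z0.2 c') s hsz
  · have h1 : F0.card ≤ (2 ^ m * (Cm + 1) * 2 ^ (p - 1)) * (B ^ kap) ^ (p - 1) := by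
      have h2 : F0.card ≤ (Z0.image (fun ω c => ξ ω c / (s : ℤ))).card * 2 ^ m := by
        rw [hF0]
        refine Finset.card_biUnion_le_card_mul _ _ _ fun κ' _ => ?_
        rw [Fintype.card_piFinset]
        refine (Finset.prod_le_pow_card _ _ 2 fun i _ => Finset.card_le_two).trans (by simp)
      have h3 : (M / s + 1) ^ (p - 1) ≤ (2 * B ^ kap) ^ (p - 1) := by
        refine Nat.pow_le_pow_left ?_ _
        rw [hMds]
        have : 1 ≤ B ^ kap := Nat.one_le_pow _ _ hBpos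
        omega
      calc F0.card ≤ (Z0.image (fun ω c => ξ ω c / (s : ℤ))).card * 2 ^ m := h2
        _ ≤ (Cm * (M / s + 1) ^ (p - 1)) * 2 ^ m := Nat.mul_le_mul_right _ hZ0i
        _ ≤ ((Cm + 1) * (2 * B ^ kap) ^ (p - 1)) * 2 ^ m :=
            Nat.mul_le_mul_right _ (Nat.mul_le_mul (Nat.le_succ _) h3)
        _ = _ := by rw [mul_pow]; ring
    refine (s2b_log_mono _ _ h1).trans (le_of_eq ?_)
    rw [Nat.cast_mul, Real.log_mul (by positivity) (by positivity)]
    congr 1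
    push_cast
    rw [Real.log_pow, Real.log_pow]
  · have h1 : F.card ≤ (B ^ kap) ^ m := by
      rw [hF, Fintype.card_piFinset]
      refine (Finset.prod_le_pow_card _ _ (B ^ kap) fun i _ => ?_).trans (by simp)
      rw [Int.card_Ico]
      have h2 : (σ.tr B k z0.2 i + 1) * (B : ℤ) ^ kap - σ.tr B k z0.2 i * (B : ℤ) ^ kap =
          ((B ^ kap : ℕ) : ℤ) := by push_cast; ring
      rw [h2, Int.toNat_natCast]
    refine (s2b_log_mono _ _ h1).trans (le_of_eq ?_)
    push_cast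
    rw [Real.log_pow, Real.log_pow]
  · have := Real.log_natCast_nonneg (2 ^ m * (Cm + 1) * 2 ^ (p - 1))
    positivity
  · positivity

/-- entropy of the digits on the product -/
theorem s2b_full (m q B : ℕ) (hB : 2 ≤ B) (σ : Sy m q) (hne : σ.G.Nonempty) (k kap : ℕ)
    (hk : k + kap ≤ σ.n) :
    m * (kap * Real.log B) ≤ cent (σ.GX B) (fun z => σ.tr B (k + kap) z.2)
      (fun z => (z.1, σ.tr B k z.2)) := by
  classical
  have hBpos : 0 < B := by omega
  have hBz : (0 : ℤ) < B := by exact_mod_cast hBpos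
  have hXcard : ∀ n' : ℕ, (gr m (B ^ n')).card = (B ^ n') ^ m := by
    intro n'
    unfold gr
    rw [Fintype.card_piFinset, Finset.prod_const, Int.card_Ico, Finset.card_univ,
      Fintype.card_fin, sub_zero, Int.toNat_natCast]
  have hXne : (σ.X B).Nonempty := by
    rw [← Finset.card_pos]
    unfold Sy.X
    rw [hXcard]
    positivity
  have hGne : (σ.GX B).Nonempty := Finset.Nonempty.product hne hXne
  -- upper bound for the entropy of the condition
  have h1 : ent (σ.GX B) (fun z => (z.1, σ.tr B k z.2)) ≤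
      Real.log σ.G.card + m * (k * Real.log B) := by
    have h2 := ent_card (σ.GX B) (fun z => (z.1, σ.tr B k z.2)) (σ.G ×ˢ gr m (B ^ k)) (by
      intro z hz
      have h3 : z ∈ σ.G ×ˢ σ.X B := hz
      have h4 := Finset.mem_product.1 h3
      refine Finset.mem_product.2 ⟨h4.1, ?_⟩
      have h5 : z.2 ∈ gr m (B ^ σ.n) := h4.2
      unfold gr at h5 ⊢
      rw [Fintype.mem_piFinset] at h5 ⊢
      intro c
      have h6 := Finset.mem_Ico.1 (h5 c)
      have hP : (0 : ℤ) < (B : ℤ) ^ (σ.n - k) := by positivity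
      refine Finset.mem_Ico.2 ⟨Int.ediv_nonneg h6.1 hP.le, ?_⟩
      change z.2 c / (B : ℤ) ^ (σ.n - k) < _
      rw [Int.ediv_lt_iff_lt_mul hP]
      push_cast at h6 ⊢
      rw [← pow_add, show k + (σ.n - k) = σ.n by omega]
      exact h6.2)
    refine h2.trans (le_of_eq ?_)
    rw [Finset.card_product, hXcard]
    push_cast
    rw [Real.log_mul (by exact_mod_cast hne.card_pos.ne') (by positivity), Real.log_pow,
      Real.log_pow]
  -- lower bound for the joint entropy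
  have h7 : Real.log σ.G.card + m * ((k + kap : ℕ) * Real.log B) ≤
      ent (σ.GX B) (fun z => (z.1, σ.tr B (k + kap) z.2)) := by
    have h8 := st_E2.2.1 _ _ (σ.GX B) (fun z => (z.1, σ.tr B (k + kap) z.2))
      ((B ^ (σ.n - (k + kap))) ^ m) hGne (by
      intro z _
      set T := σ.tr B (k + kap) z.2 with hT
      have hsub : fib (σ.GX B) (fun z => (z.1, σ.tr B (k + kap) z.2)) (z.1, T) ⊆
          ({z.1} : Finset ℕ) ×ˢ (Fintype.piFinset (fun c => Finset.Ico
            (T c * (B : ℤ) ^ (σ.n - (k + kap))) ((T c + 1) * (B : ℤ) ^ (σ.n - (k + kap))))) := by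
        intro w hw
        have h9 := e8_mem_fib.1 hw
        have h10 := Prod.ext_iff.1 h9.2
        refine Finset.mem_product.2 ⟨Finset.mem_singleton.2 h10.1, ?_⟩
        rw [Fintype.mem_piFinset]
        intro c
        have h11 : w.2 c / (B : ℤ) ^ (σ.n - (k + kap)) = T c := congrFun h10.2 c
        have hP : (0 : ℤ) < (B : ℤ) ^ (σ.n - (k + kap)) := by positivity
        have a1 := Int.mul_ediv_add_emod (w.2 c) ((B : ℤ) ^ (σ.n - (k + kap)))
        have a3 := Int.emod_nonneg (w.2 c) hP.ne'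
        have a4 := Int.emod_lt_of_pos (w.2 c) hP
        rw [h11] at a1
        rw [Finset.mem_Ico]
        constructor <;> nlinarith only [a1, a3, a4]
      refine (Finset.card_le_card hsub).trans ?_
      rw [Finset.card_product, Finset.card_singleton, one_mul, Fintype.card_piFinset]
      refine (Finset.prod_le_pow_card _ _ (B ^ (σ.n - (k + kap))) fun i _ => ?_).trans (by simp)
      rw [Int.card_Ico]
      have h2 : (T i + 1) * (B : ℤ) ^ (σ.n - (k + kap)) - T i * (B : ℤ) ^ (σ.n - (k + kap)) =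
          ((B ^ (σ.n - (k + kap)) : ℕ) : ℤ) := by push_cast; ring
      rw [h2, Int.toNat_natCast])
    refine le_trans (le_of_eq ?_) h8
    have h9 : (σ.GX B).card = σ.G.card * (B ^ σ.n) ^ m := by
      unfold Sy.GX Sy.X
      rw [Finset.card_product, hXcard]
    rw [h9]
    push_cast
    rw [Real.log_mul (by exact_mod_cast hne.card_pos.ne') (by positivity), Real.log_pow,
      Real.log_pow, Real.log_pow, Real.log_pow, Nat.cast_sub hk]
    push_cast
    ring
  have h12 : ent (σ.GX B) (fun z => (z.1, σ.tr B (k + kap) z.2)) ≤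
      ent (σ.GX B) (fun z => (σ.tr B (k + kap) z.2, (z.1, σ.tr B k z.2))) :=
    ent_le _ _ _ fun x _ y _ e => by
      have e1 := Prod.ext_iff.1 e
      have e2 := Prod.ext_iff.1 e1.2
      exact Prod.ext e2.1 e1.1
  unfold cent
  push_cast at h7
  nlinarith only [h1, h7, h12]

end Pool.Agent.Helper70.SK
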