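import Pool.Agent.Helper70.SK.Stmts
import Pool.Agent.Helper70.SK.Lib
import Pool.Agent.Helper94.DK.E8

set_option autoImplicit false

/-! Module S2B, first part: general lemmas. -/

namespace Pool.Agent.Helper70.SK

open Finset Pool.Agent.Helper70.DK MeasureTheory

theorem s2b_log_mono (a b : ℕ) (h : a ≤ b) : Real.log (a : ℝ) ≤ Real.log (b : ℝ) := by
  rcases Nat.eq_zero_or_pos a with h0 | h0
  · subst h0
    simp only [Nat.cast_zero, Real.log_zero]
    exact Real.log_natCast_nonneg b
  · exact Real.log_le_log (by exact_mod_cast h0) (by exact_mod_cast h)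

theorem s2b_avg {Ω α β : Type} (S : Finset Ω) (f : Ω → α) (g : Ω → β) :
    cent S f g = (∑ ω ∈ S, ent (fib S g (g ω)) f) / (S.card : ℝ) := by
  classical
  rw [st_E3 Ω α β S f g (S.image g) (fun x hx => Finset.mem_image_of_mem g hx)]
  rw [← Finset.sum_fiberwise_of_maps_to (s := S) (t := S.image g) (g := g)
    (fun x hx => Finset.mem_image_of_mem g hx), Finset.sum_div]
  refine Finset.sum_congr rfl fun c _ => ?_
  have e1 : ∀ ω ∈ S.filter (fun ω => g ω = c), ent (fib S g (g ω)) f = ent (fib S g c) f := by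
    intro ω hω
    rw [(Finset.mem_filter.1 hω).2]
  rw [Finset.sum_congr rfl e1, Finset.sum_const, nsmul_eq_mul, e8_filter]
  ring

theorem s2b_div (x a s : ℤ) (hs : 0 < s) :
    x / s = (x - a) / s + a / s ∨ x / s = (x - a) / s + a / s + 1 := by
  have h1 := Int.mul_ediv_add_emod x s
  have h2 := Int.mul_ediv_add_emod (x - a) s
  have h3 := Int.mul_ediv_add_emod a s
  have h4 := Int.emod_nonneg x hs.ne'
  have h5 := Int.emod_lt_of_pos x hs
  have h6 := Int.emod_nonneg (x - a) hs.ne'
  have h7 := Int.emod_lt_of_pos (x - a) hs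
  have h8 := Int.emod_nonneg a hs.ne'
  have h9 := Int.emod_lt_of_pos a hs
  set u := x / s
  set v := (x - a) / s
  set w := a / s
  have h10 : s * (u - v - w) < 2 * s := by nlinarith only [h1, h2, h3, h4, h5, h6, h7, h8, h9]
  have h11 : -s < s * (u - v - w) := by nlinarith only [h1, h2, h3, h4, h5, h6, h7, h8, h9]
  have h12 : u - v - w < 2 := by
    by_contra h
    have : 2 ≤ u - v - w := not_lt.1 h
    nlinarith only [this, h10, hs]
  have h13 : -1 < u - v - w := by
    by_contra h
    have : u - v - w ≤ -1 := not_lt.1 h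
    nlinarith only [this, h11, hs]
  omega

/-- tuples of indices and tuples of points -/
theorem s2b_push {Ω : Type} (Z : Finset Ω) (N c p : ℕ) (φ : ℕ → Ω) (hφ : ∀ j, φ j ∈ Z)
    (hc : ∀ ω ∈ Z, by classical exact ((range N).filter (fun j => φ j = ω)).card = c)
    (Q : (Fin p → Ω) → Prop) : by classical exact
    ((Fintype.piFinset (fun _ : Fin p => range N)).filter (fun j => Q (fun i => φ (j i)))).card =
      c ^ p * ((Fintype.piFinset (fun _ : Fin p => Z)).filter (fun z => Q z)).card := by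
  classical
  rw [Finset.card_eq_sum_card_fiberwise (f := fun j i => φ (j i))
    (t := (Fintype.piFinset (fun _ : Fin p => Z)).filter (fun z => Q z))]
  · have e1 : ∀ z ∈ (Fintype.piFinset (fun _ : Fin p => Z)).filter (fun z => Q z),
        (((Fintype.piFinset (fun _ : Fin p => range N)).filter
          (fun j => Q (fun i => φ (j i)))).filter (fun j => (fun i => φ (j i)) = z)).card =
        c ^ p := by
      intro z hz
      have h1 := Finset.mem_filter.1 hz
      have h2 := Fintype.mem_piFinset.1 h1.1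
      have e2 : ((Fintype.piFinset (fun _ : Fin p => range N)).filter
          (fun j => Q (fun i => φ (j i)))).filter (fun j => (fun i => φ (j i)) = z) =
          Fintype.piFinset (fun i : Fin p => (range N).filter (fun j => φ j = z i)) := by
        ext j
        simp only [Finset.mem_filter, Fintype.mem_piFinset]
        constructor
        · rintro ⟨⟨h3, _⟩, h5⟩ i
          exact ⟨h3 i, congrFun h5 i⟩
        · intro h3
          have h5 : (fun i => φ (j i)) = z := funext fun i => (h3 i).2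
          refine ⟨⟨fun i => (h3 i).1, ?_⟩, h5⟩
          rw [h5]
          exact h1.2
      rw [e2, Fintype.card_piFinset, Finset.prod_congr rfl (fun i _ => hc (z i) (h2 i))]
      simp
    rw [Finset.sum_congr rfl e1, Finset.sum_const, smul_eq_mul, mul_comm]
  · intro j hj
    have h1 := Finset.mem_filter.1 hj
    refine Finset.mem_coe.2 (Finset.mem_filter.2 ⟨?_, h1.2⟩)
    rw [Fintype.mem_piFinset]
    exact fun i => hφ (j i)

theorem s2b_push' {Ω : Type} (Z : Finset Ω) (N c p : ℕ) (φ : ℕ → Ω) (hφ : ∀ j, φ j ∈ Z)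
    (hc : ∀ ω ∈ Z, ∀ A : Finset ℕ, (∀ j, j ∈ A ↔ j ∈ range N ∧ φ j = ω) → A.card = c)
    (Q : (Fin p → Ω) → Prop) (A : Finset (Fin p → ℕ)) (A' : Finset (Fin p → Ω))
    (hA : ∀ j, j ∈ A ↔ j ∈ Fintype.piFinset (fun _ : Fin p => range N) ∧ Q (fun i => φ (j i)))
    (hA' : ∀ z, z ∈ A' ↔ z ∈ Fintype.piFinset (fun _ : Fin p => Z) ∧ Q z) :
    A.card = c ^ p * A'.card := by
  classical
  have h := s2b_push Z N c p φ hφ (fun ω hω => hc ω hω _ fun j => Finset.mem_filter) Q
  have e1 : A = (Fintype.piFinset (fun _ : Fin p => range N)).filter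
      (fun j => Q (fun i => φ (j i))) := by
    ext j
    rw [hA, Finset.mem_filter]
  have e2 : A' = (Fintype.piFinset (fun _ : Fin p => Z)).filter (fun z => Q z) := by
    ext z
    rw [hA', Finset.mem_filter]
  rw [e1, e2]
  exact h

/-- instance-free form of the enumeration -/
theorem s2b_pk (hPK : ST_PK) {Ω : Type} (F : Finset Ω) (N : ℕ) (d : Ω) (hF : F.Nonempty)
    (hN : F.card ∣ N) : (∀ j, pk F j d ∈ F) ∧
    ∀ ω ∈ F, ∀ A : Finset ℕ, (∀ j, j ∈ A ↔ j ∈ range N ∧ pk F j d = ω) → A.card * F.card = N := by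
  classical
  obtain ⟨h1, h2⟩ := hPK Ω F N d hF hN
  refine ⟨h1, fun ω hω A hA => ?_⟩
  have h3 := h2 ω hω
  have e1 : A = (range N).filter (fun j => pk F j d = ω) := by
    ext j
    rw [hA, Finset.mem_filter]
  rw [e1]
  exact h3

/-- entropy on a set most of whose points take few values -/
theorem s2b_mix {Ω α : Type} (Z Z0 : Finset Ω) (f : Ω → α) (δ a b : ℝ) (F F0 : Finset α)
    (hsub : Z0 ⊆ Z) (hZ : Z.Nonempty) (hδ : (1 - δ) * Z.card ≤ Z0.card) (hF : ∀ x ∈ Z, f x ∈ F)
    (hF0 : ∀ x ∈ Z0, f x ∈ F0) (ha : Real.log F0.card ≤ a) (hb : Real.log F.card ≤ b)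
    (ha0 : 0 ≤ a) (hb0 : 0 ≤ b) : ent Z f ≤ Real.log 2 + a + δ * b := by
  classical
  set g : Ω → Bool := fun ω => decide (ω ∈ Z0) with hg
  have hn : (0 : ℝ) < Z.card := by exact_mod_cast hZ.card_pos
  have h1 : ent Z g ≤ Real.log 2 := by
    have := ent_card Z g Finset.univ (fun x _ => Finset.mem_univ _)
    simpa using this
  have h2 : ent Z f ≤ ent Z g + cent Z f g := by
    unfold cent
    have := ent_le Z f (fun ω => (f ω, g ω)) (fun x _ y _ e => (Prod.ext_iff.1 e).1)
    linarith
  have h3 := st_E3 Ω α Bool Z f g Finset.univ (fun x _ => Finset.mem_univ _)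
  have ht : fib Z g true = Z0 := by
    ext ω
    rw [e8_mem_fib]
    simp only [hg, decide_eq_true_eq]
    exact ⟨fun h => h.2, fun h => ⟨hsub h, h⟩⟩
  have hf : fib Z g false = Z \ Z0 := by
    ext ω
    rw [e8_mem_fib, Finset.mem_sdiff]
    simp only [hg, decide_eq_false_iff_not]
  rw [Fintype.sum_bool, ht, hf] at h3
  have h4 : ent Z0 f ≤ a := (ent_card Z0 f F0 hF0).trans ha
  have h5 : ent (Z \ Z0) f ≤ b :=
    (ent_card (Z \ Z0) f F fun x hx => hF x (Finset.mem_sdiff.1 hx).1).trans hb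
  have h6 : ((Z \ Z0).card : ℝ) ≤ δ * Z.card := by
    rw [Finset.cast_card_sdiff hsub]
    linarith
  have h7 : (Z0.card : ℝ) / Z.card * ent Z0 f ≤ a := by
    have h8 : (Z0.card : ℝ) / Z.card ≤ 1 := by
      rw [div_le_one hn]
      exact_mod_cast Finset.card_le_card hsub
    calc (Z0.card : ℝ) / Z.card * ent Z0 f ≤ (Z0.card : ℝ) / Z.card * a :=
          mul_le_mul_of_nonneg_left h4 (by positivity)
      _ ≤ 1 * a := mul_le_mul_of_nonneg_right h8 ha0
      _ = a := one_mul a
  have h8 : ((Z \ Z0).card : ℝ) / Z.card * ent (Z \ Z0) f ≤ δ * b := by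
    have h9 : ((Z \ Z0).card : ℝ) / Z.card ≤ δ := by
      rw [div_le_iff₀ hn]
      exact h6
    calc ((Z \ Z0).card : ℝ) / Z.card * ent (Z \ Z0) f ≤ ((Z \ Z0).card : ℝ) / Z.card * b :=
          mul_le_mul_of_nonneg_left h5 (by positivity)
      _ ≤ δ * b := mul_le_mul_of_nonneg_right h9 hb0
  linarith

end Pool.Agent.Helper70.SK
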