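import Pool.Agent.Helper38.SK.S2B

set_option autoImplicit false

/-! Module S2B, final part. -/

namespace Pool.Agent.Helper70.SK

open Finset Pool.Agent.Helper70.DK MeasureTheory

/-- trivial bound for the entropy on a fibre -/
theorem s2b_triv (m q B : ℕ) (hB : 2 ≤ B) (σ : Sy m q) (k kap K : ℕ) (hk : k + kap ≤ σ.n)
    (g4 : ∀ k k' : ℕ, k ≤ k' → k' ≤ σ.n → ∀ x, σ.tr B k x = cl B (k' - k) (σ.tr B k' x))
    (z0 : ℕ × (Fin m → ℤ)) :
    ent (fib (σ.GX B) (σ.ff B k K) (σ.ff B k K z0)) (fun z => σ.tr B (k + kap) z.2) ≤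
      m * (kap * Real.log B) := by
  have hBpos : 0 < B := by omega
  have h0 := ent_card (fib (σ.GX B) (σ.ff B k K) (σ.ff B k K z0))
    (fun z => σ.tr B (k + kap) z.2) (Fintype.piFinset (fun c' => Finset.Ico
    (σ.tr B k z0.2 c' * (B : ℤ) ^ kap) ((σ.tr B k z0.2 c' + 1) * (B : ℤ) ^ kap))) (by
    intro z hz
    have h1 := (e8_mem_fib.1 hz).2
    unfold Sy.ff at h1
    have h2 : σ.tr B k z.2 = σ.tr B k z0.2 := (Prod.ext_iff.1 (Prod.ext_iff.1 h1).2).1
    rw [Fintype.mem_piFinset]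
    intro c'
    have h3 := g4 k (k + kap) (by omega) hk z.2
    rw [h2] at h3
    have h4 := congrFun h3 c'
    have h5 : σ.tr B k z0.2 c' = σ.tr B (k + kap) z.2 c' / (B : ℤ) ^ kap := by
      rw [h4]
      unfold cl
      congr 2
      omega
    have hP : (0 : ℤ) < (B : ℤ) ^ kap := by positivity
    have a1 := Int.mul_ediv_add_emod (σ.tr B (k + kap) z.2 c') ((B : ℤ) ^ kap)
    have a3 := Int.emod_nonneg (σ.tr B (k + kap) z.2 c') hP.ne'
    have a4 := Int.emod_lt_of_pos (σ.tr B (k + kap) z.2 c') hP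
    rw [← h5] at a1
    rw [Finset.mem_Ico]
    constructor <;> nlinarith only [a1, a3, a4])
  refine h0.trans ?_
  have h1 : (Fintype.piFinset (fun c' => Finset.Ico
      (σ.tr B k z0.2 c' * (B : ℤ) ^ kap) ((σ.tr B k z0.2 c' + 1) * (B : ℤ) ^ kap))).card ≤
      (B ^ kap) ^ m := by
    rw [Fintype.card_piFinset]
    refine (Finset.prod_le_pow_card _ _ (B ^ kap) fun i _ => ?_).trans (by simp)
    rw [Int.card_Ico]
    have h2 : (σ.tr B k z0.2 i + 1) * (B : ℤ) ^ kap - σ.tr B k z0.2 i * (B : ℤ) ^ kap =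
        ((B ^ kap : ℕ) : ℤ) := by push_cast; ring
    rw [h2, Int.toNat_natCast]
  refine (s2b_log_mono _ _ h1).trans (le_of_eq ?_)
  push_cast
  rw [Real.log_pow, Real.log_pow]

/-- comparison with the shifted cells -/
theorem s2b_shift (hIND : ST_IND) (hDET : ST_DET) (m q B : ℕ) (hB : 2 ≤ B) (σ : Sy m q) (k K : ℕ) :
    cent (σ.GX B) (fun z => cl B (σ.e K) (σ.Y B z.1 z.2)) (fun z => (z.1, σ.tr B k z.2)) ≤
      σ.hh B k K + q * Real.log 3 ∧
    σ.hh B k K ≤ cent (σ.GX B) (fun z => cl B (σ.e K) (σ.Y B z.1 z.2))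
      (fun z => (z.1, σ.tr B k z.2)) + q * Real.log 3 := by
  have hBpos : 0 < B := by omega
  have hs : (0 : ℤ) < (B : ℤ) ^ σ.e K := by positivity
  have hU : (σ.U B).Nonempty := by
    refine ⟨fun _ => 0, ?_⟩
    unfold Sy.U gr
    rw [Fintype.mem_piFinset]
    intro _
    rw [Finset.mem_Ico]
    refine ⟨le_rfl, ?_⟩
    have : 0 < B ^ (σ.n + σ.a1 + σ.a3) := pow_pos hBpos _
    exact_mod_cast this
  have h1 : cent (σ.Om B) (fun ω => cl B (σ.e K) (σ.Y B ω.1.1 ω.1.2))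
      (fun ω => (σ.tr B k ω.1.2, ω.1.1, ω.2)) =
      cent (σ.GX B) (fun z => cl B (σ.e K) (σ.Y B z.1 z.2)) (fun z => (z.1, σ.tr B k z.2)) := by
    have h2 := (hIND.1 _ _ _ _ (σ.GX B) (σ.U B) (fun z => cl B (σ.e K) (σ.Y B z.1 z.2))
      (fun z => (z.1, σ.tr B k z.2)) hU).2
    rw [← h2]
    exact cent_congr_right _ _ _ _ fun x _ y _ => by
      simp only [Prod.ext_iff]; tauto
  have h3 := hDET.1 (BS m q) ((Fin m → ℤ) × ℕ × (Fin q → ℤ)) q 0 (σ.Om B)
    (fun ω => σ.Y B ω.1.1 ω.1.2) (fun ω => σ.Y B ω.1.1 ω.1.2 + ω.2)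
    (fun ω => (σ.tr B k ω.1.2, ω.1.1, ω.2)) (fun Z r => -(Z.2.2 r)) ((B : ℤ) ^ σ.e K) hs (by
      intro ω _ r
      simp)
  have h4 := hDET.1 (BS m q) ((Fin m → ℤ) × ℕ × (Fin q → ℤ)) q 0 (σ.Om B)
    (fun ω => σ.Y B ω.1.1 ω.1.2 + ω.2) (fun ω => σ.Y B ω.1.1 ω.1.2)
    (fun ω => (σ.tr B k ω.1.2, ω.1.1, ω.2)) (fun Z r => Z.2.2 r) ((B : ℤ) ^ σ.e K) hs (by
      intro ω _ r
      simp)
  have hl : (q : ℝ) * Real.log (2 * ((0 : ℕ) : ℝ) + 3) = q * Real.log 3 := by norm_num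
  rw [hl] at h3 h4
  have h5 := cent_change_left (σ.Om B) (fun ω => cl B (σ.e K) (σ.Y B ω.1.1 ω.1.2)) (σ.C B K)
    (fun ω => (σ.tr B k ω.1.2, ω.1.1, ω.2))
  have h6 := cent_change_left (σ.Om B) (σ.C B K) (fun ω => cl B (σ.e K) (σ.Y B ω.1.1 ω.1.2))
    (fun ω => (σ.tr B k ω.1.2, ω.1.1, ω.2))
  have h7 : cent (σ.Om B) (fun ω => cl B (σ.e K) (σ.Y B ω.1.1 ω.1.2))
      (fun ω => (σ.C B K ω, σ.tr B k ω.1.2, ω.1.1, ω.2)) ≤ q * Real.log 3 := h3
  have h8 : cent (σ.Om B) (σ.C B K) (fun ω => (cl B (σ.e K) (σ.Y B ω.1.1 ω.1.2),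
      σ.tr B k ω.1.2, ω.1.1, ω.2)) ≤ q * Real.log 3 := h4
  rw [h1] at h5 h6
  unfold Sy.hh
  constructor <;> linarith only [h5, h6, h7, h8]

theorem st_S2B (hCOV : ST_COV) (hPK : ST_PK) (hGEO : ST_GEO) (hIND : ST_IND) (hDET : ST_DET) :
    ST_S2B := by
  intro m q ε2 hq hqm hε2
  classical
  have hm0 : 0 < m := by omega
  have hmr : (0 : ℝ) < m := by exact_mod_cast hm0
  obtain ⟨p, hp⟩ : ∃ p, p = m - q + 1 := ⟨_, rfl⟩
  have hp1 : 1 ≤ p := by omega
  have hpm : p ≤ m := by omega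
  obtain ⟨δ, hδdef⟩ : ∃ δ : ℝ, δ = min (1 / 2) (ε2 / (8 * m)) := ⟨_, rfl⟩
  have hδ : 0 < δ := by rw [hδdef]; exact lt_min (by norm_num) (by positivity)
  have hδm : δ * m ≤ ε2 / 8 := by
    have h1 : δ ≤ ε2 / (8 * m) := by rw [hδdef]; exact min_le_right _ _
    calc δ * m ≤ ε2 / (8 * m) * m := mul_le_mul_of_nonneg_right h1 hmr.le
      _ = ε2 / 8 := by field_simp
  refine ⟨δ ^ p * (ε2 / (8 * m)), by positivity, ?_⟩
  intro B R κ D hB hR hκ hD
  obtain ⟨Cm, hCm⟩ := hCOV m p hp1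
  have hBpos : 0 < B := by omega
  have hlog2 : 0 < Real.log 2 := Real.log_pos (by norm_num)
  have hlogB : Real.log 2 ≤ Real.log B := Real.log_le_log (by norm_num) (by exact_mod_cast hB)
  obtain ⟨c1, hc1⟩ : ∃ c1 : ℝ, c1 = Real.log 2 +
    Real.log ((2 ^ m * (Cm + 1) * 2 ^ (p - 1) : ℕ) : ℝ) + 2 * (q * Real.log 3) := ⟨_, rfl⟩
  obtain ⟨N, hN⟩ := exists_nat_ge (c1 / (3 / 4 * ε2 * Real.log 2))
  refine ⟨4 * m * N, ?_⟩
  intro W hW σ C hσ k hkn hcard
  rw [← hp] at hcard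
  obtain ⟨_, _, g3, g4⟩ := hGEO m q B R κ D C σ hB hR hD hσ
  obtain ⟨kap, hkap⟩ : ∃ kap, kap = W / (4 * m) := ⟨_, rfl⟩
  rw [← hkap]
  have hNk : N ≤ kap := by
    rw [hkap, Nat.le_div_iff_mul_le (by omega)]
    calc N * (4 * m) = 4 * m * N := by ring
      _ ≤ W := hW
  have hkW : kap ≤ W := by
    rw [hkap]
    exact Nat.div_le_self _ _
  have hkl0 : 0 ≤ (kap : ℝ) * Real.log B := by positivity
  -- nonemptiness
  have hGXne : (σ.GX B).Nonempty := by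
    refine Finset.Nonempty.product hσ.ne ⟨fun _ => 0, ?_⟩
    unfold Sy.X gr
    rw [Fintype.mem_piFinset]
    intro _
    rw [Finset.mem_Ico]
    refine ⟨le_rfl, ?_⟩
    have : 0 < B ^ σ.n := pow_pos hBpos _
    exact_mod_cast this
  have hGXc : (0 : ℝ) < (σ.GX B).card := by exact_mod_cast hGXne.card_pos
  have hN0 : (0 : ℝ) < σ.N0 B := by exact_mod_cast Nat.factorial_pos _
  -- bad points
  set bad : ℕ × (Fin m → ℤ) → ℕ := fun z =>
    ((Fintype.piFinset (fun _ : Fin p => Finset.range (σ.N0 B))).filter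
      (fun j => ¬ σ.Gt B k (k + W) p (z, j))).card with hbad
  have hsumbad : ∑ z ∈ σ.GX B, (bad z : ℝ) ≤
      δ ^ p * (ε2 / (8 * m)) * ((σ.GX B).card * (σ.N0 B : ℝ) ^ p) := by
    have h1 : ((σ.Pt B p).filter (fun ω => ¬ σ.Gt B k (k + W) p ω)).card =
        ∑ z ∈ σ.GX B, bad z := by
      rw [Finset.card_filter]
      unfold Sy.Pt
      rw [Finset.sum_product]
      refine Finset.sum_congr rfl fun z _ => ?_
      rw [hbad]
      simp only
      rw [Finset.card_filter]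
    have h2 : ((σ.Pt B p).card : ℝ) = (σ.GX B).card * (σ.N0 B : ℝ) ^ p := by
      unfold Sy.Pt
      rw [Finset.card_product, Fintype.card_piFinset, Finset.prod_const, Finset.card_range,
        Finset.card_univ, Fintype.card_fin]
      push_cast
      rfl
    rw [h1, h2] at hcard
    push_cast at hcard
    exact hcard
  set Bd := (σ.GX B).filter (fun z => ¬ ((bad z : ℝ) < (δ * σ.N0 B) ^ p)) with hBd
  have hBdc : (Bd.card : ℝ) ≤ ε2 / (8 * m) * (σ.GX B).card := by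
    have h1 : (Bd.card : ℝ) * (δ * σ.N0 B) ^ p ≤ ∑ z ∈ σ.GX B, (bad z : ℝ) := by
      calc (Bd.card : ℝ) * (δ * σ.N0 B) ^ p = ∑ z ∈ Bd, (δ * σ.N0 B) ^ p := by
            rw [Finset.sum_const, nsmul_eq_mul]
        _ ≤ ∑ z ∈ Bd, (bad z : ℝ) := Finset.sum_le_sum fun z hz =>
            not_lt.1 (Finset.mem_filter.1 hz).2
        _ ≤ ∑ z ∈ σ.GX B, (bad z : ℝ) :=
            Finset.sum_le_sum_of_subset_of_nonneg (Finset.filter_subset _ _)
              fun z _ _ => Nat.cast_nonneg _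
    have h2 : (δ * σ.N0 B) ^ p * (Bd.card : ℝ) ≤
        (δ * σ.N0 B) ^ p * (ε2 / (8 * m) * (σ.GX B).card) := by
      calc (δ * σ.N0 B) ^ p * (Bd.card : ℝ) = (Bd.card : ℝ) * (δ * σ.N0 B) ^ p := mul_comm _ _
        _ ≤ _ := h1.trans hsumbad
        _ = (δ * σ.N0 B) ^ p * (ε2 / (8 * m) * (σ.GX B).card) := by rw [mul_pow]; ring
    exact le_of_mul_le_mul_left h2 (by positivity)
  -- the average over the fibres
  obtain ⟨A, hA⟩ : ∃ A : ℝ, A = Real.log 2 +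
    (Real.log ((2 ^ m * (Cm + 1) * 2 ^ (p - 1) : ℕ) : ℝ) +
        ((p - 1 : ℕ) : ℝ) * (kap * Real.log B)) + δ * (m * (kap * Real.log B)) := ⟨_, rfl⟩
  have hA0 : 0 ≤ A := by
    rw [hA]
    have := Real.log_natCast_nonneg (2 ^ m * (Cm + 1) * 2 ^ (p - 1))
    positivity
  have havg : cent (σ.GX B) (fun z => σ.tr B (k + kap) z.2) (σ.ff B k (k + W)) ≤
      A + ε2 / 8 * (kap * Real.log B) := by
    rw [s2b_avg, div_le_iff₀ hGXc]
    have h1 : ∀ z ∈ σ.GX B, ent (fib (σ.GX B) (σ.ff B k (k + W)) (σ.ff B k (k + W) z))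
        (fun z => σ.tr B (k + kap) z.2) ≤ A +
        (if ¬ ((bad z : ℝ) < (δ * σ.N0 B) ^ p) then m * (kap * Real.log B) else 0) := by
      intro z hz
      by_cases hg : (bad z : ℝ) < (δ * σ.N0 B) ^ p
      · rw [if_neg (not_not.2 hg), add_zero, hA]
        exact s2b_fibre hPK hGEO m q p Cm hp1 hpm hCm B R κ D C hB hR hD σ hσ k W kap hkap hkn δ hδ
          z hz hg
      · rw [if_pos hg]
        have := s2b_triv m q B hB σ k kap (k + W) (by omega) g4 z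
        linarith only [this, hA0]
    refine (Finset.sum_le_sum h1).trans ?_
    rw [Finset.sum_add_distrib, Finset.sum_const, nsmul_eq_mul, ← Finset.sum_filter,
      Finset.sum_const, nsmul_eq_mul, ← hBd]
    have h2 : (Bd.card : ℝ) * (m * (kap * Real.log B)) ≤
        ε2 / 8 * (kap * Real.log B) * (σ.GX B).card := by
      calc (Bd.card : ℝ) * (m * (kap * Real.log B)) ≤
          (ε2 / (8 * m) * (σ.GX B).card) * (m * (kap * Real.log B)) :=
            mul_le_mul_of_nonneg_right hBdc (by positivity)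
        _ = ε2 / 8 * (kap * Real.log B) * (σ.GX B).card := by field_simp
    linarith only [h2]
  -- full entropy of the digits
  have hfull := s2b_full m q B hB σ hσ.ne k kap (by omega)
  -- chain rules
  set f : ℕ × (Fin m → ℤ) → (Fin m → ℤ) := fun z => σ.tr B (k + kap) z.2 with hf
  set Yh : ℕ × (Fin m → ℤ) → (Fin q → ℤ) := fun z => cl B (σ.e (k + W)) (σ.Y B z.1 z.2) with hYh
  have hc1' := cent_chain (σ.GX B) f Yh (fun z => (z.1, σ.tr B k z.2))
  have hc2' := cent_chain (σ.GX B) Yh f (fun z => (z.1, σ.tr B k z.2))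
  have hsw : cent (σ.GX B) (fun z => (f z, Yh z)) (fun z => (z.1, σ.tr B k z.2)) =
      cent (σ.GX B) (fun z => (Yh z, f z)) (fun z => (z.1, σ.tr B k z.2)) :=
    cent_congr_left _ _ _ _ fun x _ y _ _ => by
      simp only [Prod.ext_iff]; tauto
  have he1 : cent (σ.GX B) Yh (fun z => (f z, z.1, σ.tr B k z.2)) =
      cent (σ.GX B) Yh (fun z => (z.1, σ.tr B (k + kap) z.2)) :=
    cent_congr_right _ _ _ _ fun x _ y _ => by
      simp only [Prod.ext_iff, hf]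
      constructor
      · exact fun h => ⟨h.2.1, h.1⟩
      · intro h
        refine ⟨h.2, h.1, ?_⟩
        rw [g4 k (k + kap) (by omega) (by omega) x.2, g4 k (k + kap) (by omega) (by omega) y.2, h.2]
  have he2 : cent (σ.GX B) f (fun z => (Yh z, z.1, σ.tr B k z.2)) =
      cent (σ.GX B) f (σ.ff B k (k + W)) :=
    cent_congr_right _ _ _ _ fun x _ y _ => by
      simp only [Prod.ext_iff, hYh, Sy.ff]; tauto
  rw [he1] at hc1'
  rw [he2] at hc2'
  have hsh1 := (s2b_shift hIND hDET m q B hB σ k (k + W)).1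
  have hsh2 := (s2b_shift hIND hDET m q B hB σ (k + kap) (k + W)).2
  -- numbers
  have hpq : ((p - 1 : ℕ) : ℝ) = m - q := by
    have : p - 1 = m - q := by omega
    rw [this, Nat.cast_sub hqm]
  have hbig : c1 ≤ 3 / 4 * ε2 * (kap * Real.log B) := by
    have h1 : c1 ≤ 3 / 4 * ε2 * Real.log 2 * N := by
      rw [div_le_iff₀ (by positivity)] at hN
      linarith only [hN]
    have h2 : (N : ℝ) * Real.log 2 ≤ kap * Real.log B :=
      mul_le_mul (by exact_mod_cast hNk) hlogB hlog2.le (Nat.cast_nonneg _)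
    calc c1 ≤ 3 / 4 * ε2 * Real.log 2 * N := h1
      _ = 3 / 4 * ε2 * (N * Real.log 2) := by ring
      _ ≤ _ := mul_le_mul_of_nonneg_left h2 (by positivity)
  have hδ3 : δ * (m * (kap * Real.log B)) ≤ ε2 / 8 * (kap * Real.log B) := by
    calc δ * (m * (kap * Real.log B)) = (δ * m) * (kap * Real.log B) := by ring
      _ ≤ _ := mul_le_mul_of_nonneg_right hδm hkl0
  rw [hpq] at hA
  rw [hA] at havg
  rw [hc1] at hbig
  rw [mul_assoc]
  linarith only [havg, hfull, hc1', hc2', hsw, hsh1, hsh2, hbig, hδ3]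

end Pool.Agent.Helper70.SK
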