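import Pool.Agent.Helper38.SK.TR1
import Pool.Agent.Helper94.DK.E8
import Pool.Agent.Helper47.DK.E5
import Pool.Agent.Helper61.DK.FRM

set_option autoImplicit false

/-! Module TR. -/

namespace Pool.Agent.Helper70.SK

open Finset Pool.Agent.Helper70.DK MeasureTheory

theorem tr_cent_unit {Ω α : Type} (S : Finset Ω) (f : Ω → α) :
    cent S f (fun _ => ()) = ent S f := by
  unfold cent
  rw [ent_const S (fun _ => ()) (fun _ _ _ _ => rfl), sub_zero]
  exact ent_congr S _ f fun x _ y _ => by simp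

/-- number of times in a cell -/
theorem tr_fibre (b w k : ℤ) (s1 n : ℕ) (hw : w ≠ 0) (hs : 0 < s1) :
    ((range n).filter (fun j : ℕ => (b + j * w) / (s1 : ℤ) = k)).card ≤ (s1 - 1) / w.natAbs + 1 := by
  rcases ((range n).filter (fun j : ℕ => (b + j * w) / (s1 : ℤ) = k)).eq_empty_or_nonempty with h0 | h0
  · rw [h0]; simp
  · set F := (range n).filter (fun j : ℕ => (b + j * w) / (s1 : ℤ) = k) with hF
    set j0 := F.min' h0 with hj0
    have hj0m : j0 ∈ F := F.min'_mem h0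
    have hsz : (0 : ℤ) < s1 := by exact_mod_cast hs
    have hsub : F ⊆ Finset.Icc j0 (j0 + (s1 - 1) / w.natAbs) := by
      intro j hj
      have h1 : j0 ≤ j := F.min'_le j hj
      have h2 := (Finset.mem_filter.1 hj).2
      have h3 := (Finset.mem_filter.1 hj0m).2
      rw [Finset.mem_Icc]
      refine ⟨h1, ?_⟩
      have h4 := Int.mul_ediv_add_emod (b + j * w) s1
      have h5 := Int.mul_ediv_add_emod (b + j0 * w) s1
      have h6 := Int.emod_nonneg (b + j * w) hsz.ne'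
      have h7 := Int.emod_lt_of_pos (b + j * w) hsz
      have h8 := Int.emod_nonneg (b + j0 * w) hsz.ne'
      have h9 := Int.emod_lt_of_pos (b + j0 * w) hsz
      rw [h2] at h4
      rw [h3] at h5
      have h10 : |((j - j0 : ℕ) : ℤ) * w| ≤ s1 - 1 := by
        have e1 : ((j - j0 : ℕ) : ℤ) * w = (b + j * w) - (b + j0 * w) := by
          push_cast [Nat.cast_sub h1]; ring
        rw [e1, abs_le]
        constructor <;> linarith only [h4, h5, h6, h7, h8, h9]
      rw [abs_mul, Int.abs_eq_natAbs w, Nat.abs_cast] at h10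
      have h11 : (j - j0) * w.natAbs ≤ s1 - 1 := by
        have : (((j - j0) * w.natAbs : ℕ) : ℤ) ≤ ((s1 - 1 : ℕ) : ℤ) := by
          push_cast [Nat.cast_sub (show 1 ≤ s1 from hs)]
          push_cast at h10
          exact h10
        exact_mod_cast this
      have h12 : j - j0 ≤ (s1 - 1) / w.natAbs := by
        rw [Nat.le_div_iff_mul_le (Int.natAbs_pos.2 hw)]
        exact h11
      omega
    refine (Finset.card_le_card hsub).trans ?_
    rw [Nat.card_Icc]
    generalize (s1 - 1) / w.natAbs = t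
    omega

/-- the image under the frame is known up to a bounded number of values -/
theorem tr_frame {q' : ℕ} (M : Matrix (Fin q') (Fin (q' + 1)) ℝ) (hM : ∀ i c, |M i c| ≤ 1)
    (v S y : Fin (q' + 1) → ℤ) (hv : M.mulVec (fun r => (v r : ℝ)) = 0) (s1 : ℕ) (hs : 0 < s1)
    (j : ℕ) (c : Fin (q' + 1) → ℤ) (hc : ∀ r, (y r - (S r - j * v r)) / (s1 : ℤ) = c r)
    (i : Fin q') :
    ⌊(∑ r, M i r * (y r : ℝ)) / (((s1 : ℕ) : ℤ) : ℝ)⌋ ∈ Finset.Icc
      (⌊(∑ r, M i r * (S r : ℝ)) / (s1 : ℝ) + ∑ r, M i r * (c r : ℝ)⌋ - (q' + 1 : ℕ))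
      (⌊(∑ r, M i r * (S r : ℝ)) / (s1 : ℝ) + ∑ r, M i r * (c r : ℝ)⌋ + (q' + 1 : ℕ)) := by
  have hsr : (0 : ℝ) < s1 := by exact_mod_cast hs
  have hsz : (0 : ℤ) < s1 := by exact_mod_cast hs
  set κ : ℝ := (∑ r, M i r * (S r : ℝ)) / (s1 : ℝ) + ∑ r, M i r * (c r : ℝ) with hκ
  set ρ : Fin (q' + 1) → ℤ := fun r => (y r - (S r - j * v r)) % (s1 : ℤ) with hρ
  have hρ0 : ∀ r, 0 ≤ ρ r ∧ ρ r < s1 := fun r =>
    ⟨Int.emod_nonneg _ hsz.ne', Int.emod_lt_of_pos _ hsz⟩
  have hy : ∀ r, (y r : ℝ) = S r + s1 * c r + ρ r - j * v r := by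
    intro r
    have h1 := Int.mul_ediv_add_emod (y r - (S r - j * v r)) s1
    rw [hc r] at h1
    have h2 : y r = S r + s1 * c r + ρ r - j * v r := by
      rw [hρ]; simp only; linarith only [h1]
    exact_mod_cast h2
  have hv' : ∑ r, M i r * (v r : ℝ) = 0 := by
    have := congrFun hv i
    simpa [Matrix.mulVec, dotProduct] using this
  have hsum : ∑ r, M i r * (y r : ℝ) = ∑ r, M i r * (S r : ℝ) + s1 * ∑ r, M i r * (c r : ℝ) +
      ∑ r, M i r * (ρ r : ℝ) := by
    have e1 : ∑ r, M i r * (y r : ℝ) = ∑ r, M i r * (S r : ℝ) + s1 * ∑ r, M i r * (c r : ℝ) +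
      ∑ r, M i r * (ρ r : ℝ) - j * ∑ r, M i r * (v r : ℝ) := by
      rw [Finset.mul_sum, Finset.mul_sum, ← Finset.sum_add_distrib, ← Finset.sum_add_distrib,
        ← Finset.sum_sub_distrib]
      refine Finset.sum_congr rfl fun r _ => ?_
      rw [hy r]; ring
    rw [e1, hv']; ring
  have hdiff : |(∑ r, M i r * (y r : ℝ)) / (s1 : ℝ) - κ| ≤ (q' + 1 : ℕ) := by
    have e1 : (∑ r, M i r * (y r : ℝ)) / (s1 : ℝ) - κ = (∑ r, M i r * (ρ r : ℝ)) / s1 := by
      rw [hsum, hκ]; field_simp; ring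
    rw [e1, abs_div, abs_of_pos hsr, div_le_iff₀ hsr]
    refine (Finset.abs_sum_le_sum_abs _ _).trans ?_
    calc ∑ r : Fin (q' + 1), |M i r * (ρ r : ℝ)| ≤ ∑ r : Fin (q' + 1), (s1 : ℝ) := by
          refine Finset.sum_le_sum fun r _ => ?_
          rw [abs_mul]
          have h1 : |(ρ r : ℝ)| ≤ s1 := by
            rw [abs_of_nonneg (by exact_mod_cast (hρ0 r).1)]
            exact_mod_cast (hρ0 r).2.le
          calc |M i r| * |(ρ r : ℝ)| ≤ 1 * s1 := mul_le_mul (hM i r) h1 (abs_nonneg _) zero_le_one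
            _ = s1 := one_mul _
      _ = (q' + 1 : ℕ) * s1 := by
          rw [Finset.sum_const, Finset.card_univ, Fintype.card_fin, nsmul_eq_mul]
  have h6 := abs_le.1 hdiff
  rw [Int.cast_natCast, Finset.mem_Icc]
  constructor
  · have h7 : κ - ((q' + 1 : ℕ) : ℝ) ≤ (∑ r, M i r * (y r : ℝ)) / (s1 : ℝ) := by linarith only [h6.1]
    have := Int.floor_le_floor h7
    rw [Int.floor_sub_natCast] at this
    exact this
  · have h7 : (∑ r, M i r * (y r : ℝ)) / (s1 : ℝ) ≤ κ + ((q' + 1 : ℕ) : ℝ) := by linarith only [h6.2]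
    have := Int.floor_le_floor h7
    rw [Int.floor_add_natCast] at this
    exact this

/-- lower bound for the entropy of the translated cells -/
theorem tr_lower {q' : ℕ} {Ω : Type} (E : Finset Ω) (hE : E.Nonempty)
    (y : Ω → Fin (q' + 1) → ℤ) (S v : Fin (q' + 1) → ℤ) (B eh e1 : ℕ) (hB : 2 ≤ B) (he : e1 < eh)
    (M : Matrix (Fin q') (Fin (q' + 1)) ℝ) (hM : ∀ i c, |M i c| ≤ 1)
    (hv : M.mulVec (fun r => (v r : ℝ)) = 0) (r0 : Fin (q' + 1)) (hr0 : v r0 ≠ 0)
    (hlt : (v r0).natAbs < B ^ e1) (n2 : ℕ) (hn2 : n2 = B ^ eh / (v r0).natAbs) :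
    0 < n2 ∧ ent E (qf M y ((B : ℤ) ^ e1)) + ((eh : ℝ) - e1) * Real.log B - Real.log 4 -
      q' * Real.log (2 * q' + 3) ≤
      ent (E ×ˢ range n2) (fun p r => (y p.1 r - (S r - p.2 * v r)) / (B : ℤ) ^ e1) := by
  classical
  set a := (v r0).natAbs with ha
  have ha0 : 0 < a := Int.natAbs_pos.2 hr0
  have hBpos : 0 < B := by omega
  have hs1 : 0 < B ^ e1 := pow_pos hBpos _
  have hh1 : 2 * B ^ e1 ≤ B ^ eh := by
    calc 2 * B ^ e1 ≤ B * B ^ e1 := Nat.mul_le_mul_right _ hB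
      _ = B ^ (e1 + 1) := by ring
      _ ≤ B ^ eh := Nat.pow_le_pow_right hBpos he
  have hn0 : 0 < n2 := by
    rw [hn2]
    exact Nat.div_pos (by omega) ha0
  refine ⟨hn0, ?_⟩
  have hlogB : 0 < Real.log B := Real.log_pos (by exact_mod_cast hB)
  set V : Ω × ℕ → Fin (q' + 1) → ℤ := fun p r => (y p.1 r - (S r - p.2 * v r)) / (B : ℤ) ^ e1
    with hV
  set P : Ω × ℕ → Fin q' → ℤ := fun p => qf M y ((B : ℤ) ^ e1) p.1 with hP
  have hR : (range n2).Nonempty := ⟨0, Finset.mem_range.2 hn0⟩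
  -- entropy of `P` given `V`
  have h1 : cent (E ×ˢ range n2) P V ≤ q' * Real.log (2 * q' + 3) := by
    have h2 := cent_card (E ×ˢ range n2) P V ((2 * q' + 3) ^ q') (by
      intro c
      refine ⟨Fintype.piFinset (fun i => Finset.Icc
        (⌊(∑ r, M i r * (S r : ℝ)) / ((B ^ e1 : ℕ) : ℝ) + ∑ r, M i r * (c r : ℝ)⌋ - (q' + 1 : ℕ))
        (⌊(∑ r, M i r * (S r : ℝ)) / ((B ^ e1 : ℕ) : ℝ) + ∑ r, M i r * (c r : ℝ)⌋ + (q' + 1 : ℕ))),
        ?_, ?_⟩
      · rw [Fintype.card_piFinset]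
        refine (Finset.prod_le_pow_card _ _ (2 * q' + 3) fun i _ => ?_).trans (by simp)
        rw [Int.card_Icc]
        omega
      · intro p _ hpc
        rw [Fintype.mem_piFinset]
        intro i
        have h3 := tr_frame M hM v S (y p.1) hv (B ^ e1) hs1 p.2 c (by
          intro r
          have := congrFun hpc r
          rw [hV] at this
          push_cast
          exact this) i
        rw [hP]
        simp only [qf, fl]
        push_cast at h3 ⊢
        exact h3)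
    refine h2.trans (le_of_eq ?_)
    push_cast
    rw [Real.log_pow]
  -- entropy of `V` given the point
  have h4 : (((eh : ℝ) - e1) * Real.log B - Real.log 4) ≤
      cent (E ×ˢ range n2) V (fun p => p.1) := by
    have h5 := st_E5.2.2.2.1 Ω ℕ (Fin (q' + 1) → ℤ) E (range n2)
      (fun ω j r => (y ω r - (S r - (j : ℤ) * v r)) / (B : ℤ) ^ e1) hE hR
    have h6 : cent (E ×ˢ range n2) V (fun p => p.1) =
        (∑ x ∈ E, ent (range n2) (fun (j : ℕ) r => (y x r - (S r - (j : ℤ) * v r)) /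
          (B : ℤ) ^ e1)) / (E.card : ℝ) := h5
    rw [h6]
    have hEc : (0 : ℝ) < E.card := by exact_mod_cast hE.card_pos
    rw [le_div_iff₀ hEc, mul_comm, ← nsmul_eq_mul, ← Finset.sum_const]
    refine Finset.sum_le_sum fun ω _ => ?_
    have h7 := st_E2.2.1 ℕ (Fin (q' + 1) → ℤ) (range n2)
      (fun (j : ℕ) r => (y ω r - (S r - (j : ℤ) * v r)) / (B : ℤ) ^ e1)
      ((B ^ e1 - 1) / a + 1) hR (by
      intro j0 _
      refine (Finset.card_le_card ?_).trans (tr_fibre (y ω r0 - S r0) (v r0)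
        ((y ω r0 - (S r0 - (j0 : ℤ) * v r0)) / (B : ℤ) ^ e1) (B ^ e1) n2 hr0 hs1)
      intro j hj
      have h8 := e8_mem_fib.1 hj
      refine Finset.mem_filter.2 ⟨h8.1, ?_⟩
      have h9 : (y ω r0 - (S r0 - (j : ℤ) * v r0)) / (B : ℤ) ^ e1 =
        (y ω r0 - (S r0 - (j0 : ℤ) * v r0)) / (B : ℤ) ^ e1 := congrFun h8.2 r0
      rw [← h9]
      push_cast
      congr 1
      ring)
    rw [Finset.card_range] at h7
    refine le_trans ?_ h7
    have har : (0 : ℝ) < a := by exact_mod_cast ha0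
    have hs1r : (0 : ℝ) < (B : ℝ) ^ e1 := by positivity
    have hhr : (0 : ℝ) < (B : ℝ) ^ eh := by positivity
    have hn2r : (B : ℝ) ^ eh / (2 * a) ≤ n2 := by
      rw [div_le_iff₀ (by positivity)]
      have h10 : B ^ eh ≤ n2 * (2 * a) := by
        have h11 : B ^ eh < a * (B ^ eh / a + 1) := Nat.lt_mul_div_succ _ ha0
        rw [← hn2] at h11
        nlinarith only [h11, hn0, ha0]
      exact_mod_cast h10
    have hK : (((B ^ e1 - 1) / a + 1 : ℕ) : ℝ) ≤ 2 * (B : ℝ) ^ e1 / a := by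
      have h12 : ((B ^ e1 - 1) / a + 1) * a ≤ 2 * B ^ e1 := by
        have h13 : (B ^ e1 - 1) / a * a ≤ B ^ e1 - 1 := Nat.div_mul_le_self _ _
        have h14 : a ≤ B ^ e1 := hlt.le
        have h15 : ((B ^ e1 - 1) / a + 1) * a = (B ^ e1 - 1) / a * a + a := by ring
        omega
      rw [le_div_iff₀ har]
      exact_mod_cast h12
    have hl1 : Real.log ((B : ℝ) ^ eh / (2 * a)) ≤ Real.log (n2 : ℝ) :=
      Real.log_le_log (by positivity) hn2r
    have hl2 : Real.log ((((B ^ e1 - 1) / a + 1 : ℕ) : ℝ)) ≤ Real.log (2 * (B : ℝ) ^ e1 / a) :=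
      Real.log_le_log (by positivity) hK
    rw [Real.log_div (by positivity) (by positivity), Real.log_mul (by positivity) (by positivity),
      Real.log_pow] at hl1
    rw [Real.log_div (by positivity) (by positivity), Real.log_mul (by positivity) (by positivity),
      Real.log_pow] at hl2
    have hl4 : Real.log 4 = 2 * Real.log 2 := by
      rw [show (4 : ℝ) = 2 ^ 2 by norm_num, Real.log_pow]; norm_num
    rw [hl4]
    linarith only [hl1, hl2]
  -- collect
  have h16 := cent_chain (E ×ˢ range n2) V P (fun _ => ())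
  have h17 := cent_chain (E ×ˢ range n2) P V (fun _ => ())
  rw [tr_cent_unit, tr_cent_unit] at h16 h17
  have h18 : ent (E ×ˢ range n2) (fun ω => (V ω, P ω)) =
      ent (E ×ˢ range n2) (fun ω => (P ω, V ω)) :=
    ent_congr _ _ _ fun x _ y _ => by simp only [Prod.ext_iff]; tauto
  have h19 : cent (E ×ˢ range n2) P (fun ω => (V ω, ())) = cent (E ×ˢ range n2) P V :=
    cent_congr_right _ _ _ _ fun x _ y _ => by simp
  have h20 : cent (E ×ˢ range n2) V (fun p => p.1) ≤
      cent (E ×ˢ range n2) V (fun ω => (P ω, ())) :=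
    cent_mono_right _ _ _ _ fun x _ y _ e => by
      have : x.1 = y.1 := e
      simp only [hP, this]
  have h21 : ent (E ×ˢ range n2) P = ent E (qf M y ((B : ℤ) ^ e1)) :=
    st_E5.1 Ω ℕ _ E (range n2) (qf M y ((B : ℤ) ^ e1)) hR
  rw [h19] at h16
  rw [h18, h17, h21] at h16
  linarith only [h16, h1, h4, h20]

theorem st_TR : ST_TR := by
  intro q'
  refine ⟨q' * Real.log (2 * q' + 3) + (q' + 1) * Real.log 4 + Real.log 4 + 1, ?_, ?_⟩
  · have h1 : 0 ≤ Real.log (2 * (q' : ℝ) + 3) := Real.log_nonneg (by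
      have : (0 : ℝ) ≤ q' := Nat.cast_nonneg _
      linarith)
    have h2 : 0 ≤ Real.log (4 : ℝ) := Real.log_nonneg (by norm_num)
    positivity
  intro B e0 eh e1 e2 Ω Z y S v φ2 φ3 M hB h21 h1h hh0 hM hv hv1 hv2 hne hdp hLy hφ2 hφ3 hx1
  classical
  have hBpos : 0 < B := by omega
  set E := Qb Z y ((B : ℤ) ^ e0) S with hE
  set x := φ2 + 2 * φ3 with hx
  -- the largest coordinate
  obtain ⟨r0, _, hr0⟩ := Finset.exists_max_image Finset.univ (fun r => (v r).natAbs)
    ⟨(0 : Fin (q' + 1)), Finset.mem_univ _⟩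
  have hs2 : (0 : ℤ) < (B : ℤ) ^ e2 := by positivity
  have hr0' : v r0 ≠ 0 := by
    obtain ⟨r, hr⟩ := hv2
    have h3 := hr0 r (Finset.mem_univ r)
    intro h4
    rw [h4] at h3
    simp only [Int.natAbs_zero, Nat.le_zero, Int.natAbs_eq_zero] at h3
    rw [h3] at hr
    simp only [abs_zero] at hr
    exact absurd hr (not_le.2 hs2)
  have hlt : (v r0).natAbs < B ^ e1 := by
    have h3 := hv1 r0
    rw [Int.abs_eq_natAbs] at h3
    exact_mod_cast h3
  obtain ⟨hn0, hlow⟩ := tr_lower E hne y S v B eh e1 hB h1h M (st_FRM.2.1 _ _ M hM) hv r0 hr0' hlt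
    (B ^ eh / (v r0).natAbs) rfl
  set n2 := B ^ eh / (v r0).natAbs with hn2
  have hjv : ∀ j < n2, ∀ r, (j : ℤ) * |v r| ≤ (B : ℤ) ^ eh := by
    intro j hj r
    have h3 := hr0 r (Finset.mem_univ r)
    have h4 : j * (v r).natAbs ≤ B ^ eh := by
      calc j * (v r).natAbs ≤ n2 * (v r0).natAbs := Nat.mul_le_mul hj.le h3
        _ ≤ B ^ eh := Nat.div_mul_le_self _ _
    rw [Int.abs_eq_natAbs]
    exact_mod_cast h4
  set g : Ω → ℕ → Fin (q' + 1) → ℤ := fun ω j r => (y ω r - (S r - j * v r)) / (B : ℤ) ^ e2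
    with hg
  have hEc : (0 : ℝ) < E.card := by exact_mod_cast hne.card_pos
  -- the laws are close
  have hclose : l1 (E ×ˢ range n2) (fun p => g p.1 p.2) E (pf y ((B : ℤ) ^ e2) S) ≤ x := by
    refine tr_avg E n2 g E _ x hne hn0 fun j hj => ?_
    have h3 := hdp j (hjv j hj)
    set Ej := Qb Z y ((B : ℤ) ^ e0) (fun r => S r - j * v r) with hEj
    have h4 : l1 E (fun ω => g ω j) E (pf y ((B : ℤ) ^ e2) S) ≤
        l1 E (fun ω => g ω j) Ej (fun ω => g ω j) +
          l1 Ej (fun ω => g ω j) E (pf y ((B : ℤ) ^ e2) S) := l1_triangle _ _ _ _ _ _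
    have h5 : l1 Ej (fun ω => g ω j) E (pf y ((B : ℤ) ^ e2) S) ≤ φ2 := by
      rw [l1_comm]
      exact h3
    have habs : ∀ r, -(B : ℤ) ^ eh ≤ j * v r ∧ j * v r ≤ (B : ℤ) ^ eh := by
      intro r
      have h6 := hjv j hj r
      rw [← abs_le, abs_mul, Nat.abs_cast]
      exact h6
    have h6 : l1 E (fun ω => g ω j) Ej (fun ω => g ω j) ≤
        2 * (((Ly Z y ((B : ℤ) ^ e0) ((B : ℤ) ^ eh) S).card : ℝ) / (E.card : ℝ)) := by
      rw [l1_comm]
      refine tr_l1_symm E Ej (fun ω => g ω j) _ hne ?_ ?_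
      · intro ω hω hω'
        have h7 := Finset.mem_filter.1 hω
        refine Finset.mem_filter.2 ⟨h7.1, ?_, ?_⟩
        · intro r
          have h8 := h7.2 r
          have h9 : (0 : ℤ) ≤ (B : ℤ) ^ eh := by positivity
          constructor <;> linarith only [h8.1, h8.2, h9]
        · intro h8
          refine hω' (Finset.mem_filter.2 ⟨h7.1, fun r => ?_⟩)
          have h9 := h8 r
          have h10 := habs r
          constructor <;> linarith only [h9.1, h9.2, h10.1, h10.2]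
      · intro ω hω hω'
        have h7 := Finset.mem_filter.1 hω
        refine Finset.mem_filter.2 ⟨h7.1, ?_, ?_⟩
        · intro r
          have h8 := h7.2 r
          have h10 := habs r
          constructor <;> linarith only [h8.1, h8.2, h10.1, h10.2]
        · intro h8
          refine hω' (Finset.mem_filter.2 ⟨h7.1, fun r => ?_⟩)
          have h9 := h8 r
          have h10 : (0 : ℤ) ≤ (B : ℤ) ^ eh := by positivity
          constructor <;> linarith only [h9.1, h9.2, h10]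
    have h7 : ((Ly Z y ((B : ℤ) ^ e0) ((B : ℤ) ^ eh) S).card : ℝ) / (E.card : ℝ) ≤ φ3 := by
      rw [div_le_iff₀ hEc]
      exact hLy
    linarith only [h4, h5, h6, h7, hx]
  -- clipping
  set N : ℕ := B ^ (e0 - e1) with hN
  have hN1 : 1 ≤ N := Nat.one_le_pow _ _ hBpos
  set F : (Fin (q' + 1) → ℤ) → (Fin (q' + 1) → ℤ) := fun a r =>
    max (-(N : ℤ)) (min (2 * (N : ℤ)) (a r / (B : ℤ) ^ (e1 - e2))) with hF
  have hcell : ∀ ω ∈ E, ∀ j < n2, F (g ω j) = fun r => (y ω r - (S r - j * v r)) / (B : ℤ) ^ e1 := by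
    intro ω hω j hj
    funext r
    have h3 := (Finset.mem_filter.1 hω).2 r
    have h4 := hjv j hj r
    have h5 : -(B : ℤ) ^ eh ≤ j * v r ∧ j * v r ≤ (B : ℤ) ^ eh := by
      rw [← abs_le, abs_mul, Nat.abs_cast]
      exact h4
    have h6 : (B : ℤ) ^ eh ≤ (B : ℤ) ^ e0 := by
      exact_mod_cast Nat.pow_le_pow_right hBpos hh0
    have h7 : (B : ℤ) ^ e0 = N * (B : ℤ) ^ e1 := by
      rw [hN]; push_cast; rw [← pow_add]; congr 1; omega
    have hs1 : (0 : ℤ) < (B : ℤ) ^ e1 := by positivity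
    have h8 : (g ω j r) / (B : ℤ) ^ (e1 - e2) = (y ω r - (S r - j * v r)) / (B : ℤ) ^ e1 := by
      rw [hg]
      simp only
      rw [Int.ediv_ediv_of_nonneg (by positivity), ← pow_add]
      congr 2
      omega
    have h9 : -(N : ℤ) ≤ (y ω r - (S r - j * v r)) / (B : ℤ) ^ e1 := by
      rw [Int.le_ediv_iff_mul_le hs1]
      linarith only [h3.1, h5.1, h6, h7]
    have h10 : (y ω r - (S r - j * v r)) / (B : ℤ) ^ e1 ≤ 2 * (N : ℤ) := by
      have : (y ω r - (S r - j * v r)) / (B : ℤ) ^ e1 < 2 * (N : ℤ) + 1 := by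
        rw [Int.ediv_lt_iff_lt_mul hs1]
        linarith only [h3.2, h5.2, h6, h7, hs1]
      omega
    rw [hF]
    simp only
    rw [h8, min_eq_right h10, max_eq_right h9]
  have hcell0 : ∀ ω ∈ E, F (pf y ((B : ℤ) ^ e2) S ω) = pf y ((B : ℤ) ^ e1) S ω := by
    intro ω hω
    have h3 := hcell ω hω 0 hn0
    have h4 : g ω 0 = pf y ((B : ℤ) ^ e2) S ω := by
      funext r
      rw [hg]; simp [pf]
    rw [h4] at h3
    rw [h3]
    funext r
    simp [pf]
  have hne2 : (E ×ˢ range n2).Nonempty := Finset.Nonempty.product hne ⟨0, Finset.mem_range.2 hn0⟩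
  have h8 := st_E8 (Ω × ℕ) Ω _ _ Unit (E ×ˢ range n2) E (fun p => g p.1 p.2)
    (pf y ((B : ℤ) ^ e2) S) F (fun _ => ()) ((4 * N) ^ (q' + 1)) x hne2 hne
    (Nat.one_le_pow _ _ (by omega)) (by
      intro c
      refine ⟨Fintype.piFinset (fun _ => Finset.Icc (-(N : ℤ)) (2 * (N : ℤ))), ?_, ?_⟩
      · rw [Fintype.card_piFinset]
        refine (Finset.prod_le_pow_card _ _ (4 * N) fun i _ => ?_).trans (by simp)
        rw [Int.card_Icc]
        omega
      · intro a _
        rw [Fintype.mem_piFinset]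
        intro r
        rw [Finset.mem_Icc, hF]
        simp only
        constructor
        · exact le_max_left _ _
        · exact max_le (by omega) (min_le_left _ _)) hclose hx1
  rw [tr_cent_unit, tr_cent_unit] at h8
  have h9 : ent (E ×ˢ range n2) (fun p => F (g p.1 p.2)) =
      ent (E ×ˢ range n2) (fun p r => (y p.1 r - (S r - p.2 * v r)) / (B : ℤ) ^ e1) := by
    refine ent_congr _ _ _ fun p hp p' hp' => ?_
    have h10 := Finset.mem_product.1 hp
    have h11 := Finset.mem_product.1 hp'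
    rw [hcell p.1 h10.1 p.2 (Finset.mem_range.1 h10.2), hcell p'.1 h11.1 p'.2
      (Finset.mem_range.1 h11.2)]
  have h10 : ent E (fun ω => F (pf y ((B : ℤ) ^ e2) S ω)) = ent E (pf y ((B : ℤ) ^ e1) S) := by
    refine ent_congr _ _ _ fun ω hω ω' hω' => ?_
    rw [hcell0 ω hω, hcell0 ω' hω']
  rw [h9, h10] at h8
  have hlogK : Real.log (((4 * N) ^ (q' + 1) : ℕ) : ℝ) =
      (q' + 1) * (Real.log 4 + ((e0 : ℝ) - e1) * Real.log B) := by
    rw [hN]
    push_cast
    rw [Real.log_pow, Real.log_mul (by norm_num) (by positivity), Real.log_pow,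
      Nat.cast_sub (by omega)]
    push_cast
    ring
  rw [hlogK] at h8
  have hx0 : 0 ≤ x := by rw [hx]; positivity
  have hlogq : 0 ≤ q' * Real.log (2 * (q' : ℝ) + 3) := by
    have h1 : 0 ≤ Real.log (2 * (q' : ℝ) + 3) := Real.log_nonneg (by
      have : (0 : ℝ) ≤ q' := Nat.cast_nonneg _
      linarith)
    positivity
  have hlog4 : 0 ≤ Real.log (4 : ℝ) := Real.log_nonneg (by norm_num)
  have hql4 : 0 ≤ ((q' : ℝ) + 1) * Real.log 4 := by positivity
  have hm1 := mul_nonneg hx0 hlogq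
  have hm2 := mul_nonneg hx0 hlog4
  nlinarith only [h8, hlow, hm1, hm2, hql4, hlog4, hlogq]

end Pool.Agent.Helper70.SK
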