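import Pool.Agent.Helper70.SK.Stmts
import Pool.Agent.Helper70.SK.Lib

set_option autoImplicit false

/-! Module TR, first part: two lemmas on the distance of laws. -/

namespace Pool.Agent.Helper70.SK

open Finset Pool.Agent.Helper70.DK MeasureTheory

theorem tr_fib_le {Ω α : Type} [DecidableEq Ω] [DecidableEq α] (E E' D : Finset Ω) (g : Ω → α)
    (z : α) (h : E \ E' ⊆ D) : ((E.filter (fun ω => g ω = z)).card : ℝ) ≤
      ((E'.filter (fun ω => g ω = z)).card : ℝ) + ((D.filter (fun ω => g ω = z)).card : ℝ) := by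
  have h1 : E.filter (fun ω => g ω = z) ⊆
      E'.filter (fun ω => g ω = z) ∪ D.filter (fun ω => g ω = z) := by
    intro ω hω
    have h2 := Finset.mem_filter.1 hω
    rw [Finset.mem_union, Finset.mem_filter, Finset.mem_filter]
    by_cases h3 : ω ∈ E'
    · exact Or.inl ⟨h3, h2.2⟩
    · exact Or.inr ⟨h (Finset.mem_sdiff.2 ⟨h2.1, h3⟩), h2.2⟩
  exact_mod_cast (Finset.card_le_card h1).trans (Finset.card_union_le _ _)

theorem tr_card_le {Ω : Type} [DecidableEq Ω] (E E' D : Finset Ω) (h : E \ E' ⊆ D) :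
    (E.card : ℝ) ≤ (E'.card : ℝ) + (D.card : ℝ) := by
  have h1 : E ⊆ E' ∪ D := by
    intro ω hω
    rw [Finset.mem_union]
    by_cases h3 : ω ∈ E'
    · exact Or.inl h3
    · exact Or.inr (h (Finset.mem_sdiff.2 ⟨hω, h3⟩))
  exact_mod_cast (Finset.card_le_card h1).trans (Finset.card_union_le _ _)

theorem tr_l1_symm {Ω α : Type} (E E' : Finset Ω) (g : Ω → α) (D : Finset Ω) (hE : E.Nonempty)
    (h1 : ∀ ω ∈ E, ω ∉ E' → ω ∈ D) (h2 : ∀ ω ∈ E', ω ∉ E → ω ∈ D) :
    l1 E' g E g ≤ 2 * ((D.card : ℝ) / (E.card : ℝ)) := by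
  classical
  have hn : (0 : ℝ) < E.card := by exact_mod_cast hE.card_pos
  have s1 : E \ E' ⊆ D := fun ω hω => h1 ω (Finset.mem_sdiff.1 hω).1 (Finset.mem_sdiff.1 hω).2
  have s2 : E' \ E ⊆ D := fun ω hω => h2 ω (Finset.mem_sdiff.1 hω).1 (Finset.mem_sdiff.1 hω).2
  set A := (E ∪ E' ∪ D).image g with hA
  have hAE : ∀ x ∈ E, g x ∈ A := fun x hx => Finset.mem_image_of_mem g
    (Finset.mem_union_left _ (Finset.mem_union_left _ hx))
  have hAE' : ∀ x ∈ E', g x ∈ A := fun x hx => Finset.mem_image_of_mem g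
    (Finset.mem_union_left _ (Finset.mem_union_right _ hx))
  have hAD : ∀ x ∈ D, g x ∈ A := fun x hx => Finset.mem_image_of_mem g
    (Finset.mem_union_right _ hx)
  have hD : (D.card : ℝ) = ∑ z ∈ A, ((D.filter (fun ω => g ω = z)).card : ℝ) := by
    rw [Finset.card_eq_sum_card_fiberwise (f := g) (t := A) (fun x hx => hAD x hx)]
    push_cast
    rfl
  rw [l1_eq_sum E' g E g A hAE' hAE]
  rcases E'.eq_empty_or_nonempty with h0 | h0
  · have h3 : ∀ z, law E' g z = 0 := fun z => by subst h0; simp [law]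
    have h4 := law_sum E g A hAE hE
    have h5 : (E.card : ℝ) ≤ D.card := by
      exact_mod_cast Finset.card_le_card fun ω hω => h1 ω hω (by rw [h0]; simp)
    calc ∑ z ∈ A, |law E' g z - law E g z| = ∑ z ∈ A, law E g z := by
          refine Finset.sum_congr rfl fun z _ => ?_
          rw [h3, zero_sub, abs_neg, abs_of_nonneg (law_nonneg E g z)]
      _ = 1 := h4
      _ ≤ 2 * ((D.card : ℝ) / (E.card : ℝ)) := by
          have : 1 ≤ (D.card : ℝ) / (E.card : ℝ) := by rw [le_div_iff₀ hn]; linarith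
          linarith
  · have hn' : (0 : ℝ) < E'.card := by exact_mod_cast h0.card_pos
    have hE' : (E'.card : ℝ) = ∑ z ∈ A, ((E'.filter (fun ω => g ω = z)).card : ℝ) := by
      rw [Finset.card_eq_sum_card_fiberwise (f := g) (t := A) (fun x hx => hAE' x hx)]
      push_cast
      rfl
    have hpt : ∀ z ∈ A, |law E' g z - law E g z| ≤
        ((D.filter (fun ω => g ω = z)).card : ℝ) / E.card +
          ((E'.filter (fun ω => g ω = z)).card : ℝ) * |1 / (E'.card : ℝ) - 1 / (E.card : ℝ)| := by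
      intro z _
      have e1 : law E' g z - law E g z =
          (((E'.filter (fun ω => g ω = z)).card : ℝ) - ((E.filter (fun ω => g ω = z)).card : ℝ)) /
            E.card + ((E'.filter (fun ω => g ω = z)).card : ℝ) *
              (1 / (E'.card : ℝ) - 1 / (E.card : ℝ)) := by
        unfold law
        ring
      rw [e1]
      refine (abs_add_le _ _).trans (add_le_add ?_ ?_)
      · rw [abs_div, abs_of_pos hn]
        refine div_le_div_of_nonneg_right ?_ hn.le
        rw [abs_le]
        have a1 := tr_fib_le E E' D g z s1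
        have a2 := tr_fib_le E' E D g z s2
        constructor <;> linarith
      · rw [abs_mul, abs_of_nonneg (Nat.cast_nonneg _)]
    refine (Finset.sum_le_sum hpt).trans ?_
    rw [Finset.sum_add_distrib, ← Finset.sum_div, ← hD, ← Finset.sum_mul, ← hE']
    have h6 : (E'.card : ℝ) * |1 / (E'.card : ℝ) - 1 / (E.card : ℝ)| ≤ (D.card : ℝ) / E.card := by
      have e2 : 1 / (E'.card : ℝ) - 1 / (E.card : ℝ) =
          ((E.card : ℝ) - E'.card) / (E'.card * E.card) := by
        field_simp
      rw [e2, abs_div, abs_of_pos (mul_pos hn' hn)]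
      have e3 : (E'.card : ℝ) * (|(E.card : ℝ) - E'.card| / (E'.card * E.card)) =
          |(E.card : ℝ) - E'.card| / E.card := by
        field_simp
      rw [e3]
      refine div_le_div_of_nonneg_right ?_ hn.le
      rw [abs_le]
      have a1 := tr_card_le E E' D s1
      have a2 := tr_card_le E' E D s2
      constructor <;> linarith
    linarith

theorem tr_avg {Ω Ω' α : Type} (E : Finset Ω) (n : ℕ) (g : Ω → ℕ → α) (E' : Finset Ω')
    (f' : Ω' → α) (x : ℝ) (hE : E.Nonempty) (hn : 0 < n)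
    (h : ∀ j < n, l1 E (fun ω => g ω j) E' f' ≤ x) :
    l1 (E ×ˢ range n) (fun p => g p.1 p.2) E' f' ≤ x := by
  classical
  have hE0 : (0 : ℝ) < E.card := by exact_mod_cast hE.card_pos
  have hn0 : (0 : ℝ) < n := by exact_mod_cast hn
  set A := (E ×ˢ range n).image (fun p => g p.1 p.2) ∪ E'.image f' with hA
  have hA1 : ∀ p ∈ E ×ˢ range n, g p.1 p.2 ∈ A := fun p hp =>
    Finset.mem_union_left _ (Finset.mem_image_of_mem (fun p : Ω × ℕ => g p.1 p.2) hp)
  have hA2 : ∀ x ∈ E', f' x ∈ A := fun x hx =>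
    Finset.mem_union_right _ (Finset.mem_image_of_mem f' hx)
  have hlaw : ∀ z, law (E ×ˢ range n) (fun p => g p.1 p.2) z =
      (∑ j ∈ range n, law E (fun ω => g ω j) z) / n := by
    intro z
    unfold law
    have hc : (((E ×ˢ range n).filter (fun p => g p.1 p.2 = z)).card : ℝ) =
        ∑ j ∈ range n, ((E.filter (fun ω => g ω j = z)).card : ℝ) := by
      rw [Finset.card_filter]
      push_cast
      rw [Finset.sum_product_right]
      refine Finset.sum_congr rfl fun j _ => ?_
      rw [Finset.card_filter]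
      push_cast
      rfl
    rw [hc, ← Finset.sum_div, Finset.card_product, Finset.card_range, Nat.cast_mul, div_div]
  rw [l1_eq_sum _ _ _ _ A hA1 hA2]
  have h1 : ∀ z ∈ A, |law (E ×ˢ range n) (fun p => g p.1 p.2) z - law E' f' z| ≤
      (∑ j ∈ range n, |law E (fun ω => g ω j) z - law E' f' z|) / n := by
    intro z _
    rw [hlaw, le_div_iff₀ hn0]
    have e1 : (∑ j ∈ range n, law E (fun ω => g ω j) z) / n - law E' f' z =
        (∑ j ∈ range n, (law E (fun ω => g ω j) z - law E' f' z)) / n := by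
      rw [Finset.sum_sub_distrib, Finset.sum_const, Finset.card_range, nsmul_eq_mul, sub_div,
        mul_div_cancel_left₀ _ hn0.ne']
    rw [e1, abs_div, abs_of_pos hn0, div_mul_cancel₀ _ hn0.ne']
    exact Finset.abs_sum_le_sum_abs _ _
  refine (Finset.sum_le_sum h1).trans ?_
  rw [← Finset.sum_div, Finset.sum_comm, div_le_iff₀ hn0]
  calc ∑ j ∈ range n, ∑ z ∈ A, |law E (fun ω => g ω j) z - law E' f' z| ≤
      ∑ j ∈ range n, x := by
        refine Finset.sum_le_sum fun j hj => ?_
        rw [← l1_eq_sum E (fun ω => g ω j) E' f' A (fun ω hω => hA1 (ω, j)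
          (Finset.mem_product.2 ⟨hω, hj⟩)) hA2]
        exact h j (Finset.mem_range.1 hj)
    _ = x * n := by rw [Finset.sum_const, Finset.card_range, nsmul_eq_mul, mul_comm]

end Pool.Agent.Helper70.SK
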